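import Pool.Agent.Work.MP_3892ce_gt.Tet

/-! # Cubes: volume and total edge length -/

set_option autoImplicit false

namespace Pool.Agent.Work.MP_3892ce_cube_h9

open Pool.Agent.Work.MP_3892ce_gt MeasureTheory Set

/-- the parallelepiped with vertex `o` and edge vectors `u 0, u 1, u 2` -/
def Box (o : E3) (u : Fin 3 → E3) : Set E3 :=
  {x | ∃ t : Fin 3 → ℝ, (∀ i, 0 ≤ t i ∧ t i ≤ 1) ∧ x = o + ∑ i, t i • u i}

/-- `P` is a cube with edge length `a` -/
def IsCube (P : Set E3) : Prop :=
  ∃ (o : E3) (u : Fin 3 → E3) (a : ℝ), 0 < a ∧ (∀ i, ‖u i‖ = a) ∧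
    (∀ i j, i ≠ j → inner ℝ (u i) (u j) = 0) ∧ P = Box o u

def bb (b : Bool) : ℝ := if b then 1 else 0

lemma bb_mem (b : Bool) : 0 ≤ bb b ∧ bb b ≤ 1 := by cases b <;> simp [bb]

lemma sum_i (i : Fin 3) (f : Fin 3 → E3) : ∑ j, f j = f i + f (i + 1) + f (i + 2) := by
  fin_cases i <;> simp [Fin.sum_univ_three]
  · abel
  · abel

lemma convex_box (o : E3) (u : Fin 3 → E3) : Convex ℝ (Box o u) := by
  rintro _ ⟨t, ht, rfl⟩ _ ⟨t', ht', rfl⟩ a b ha hb hab
  refine ⟨fun i => a * t i + b * t' i, fun i => ?_, ?_⟩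
  · have h1 := ht i; have h2 := ht' i
    constructor
    · have := h1.1; have := h2.1; positivity
    · calc a * t i + b * t' i ≤ a * 1 + b * 1 :=
          add_le_add (mul_le_mul_of_nonneg_left h1.2 ha) (mul_le_mul_of_nonneg_left h2.2 hb)
        _ = 1 := by linarith
  · rw [Fin.sum_univ_three, Fin.sum_univ_three, Fin.sum_univ_three]
    have : a = 1 - b := by linarith
    rw [this]
    module

/-- an edge of a cube is one of the twelve standard edges -/
lemma box_edge {o : E3} {u : Fin 3 → E3} {a : ℝ} (ha : 0 < a) (hn : ∀ i, ‖u i‖ = a)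
    (ho : ∀ i j, i ≠ j → inner ℝ (u i) (u j) = 0) {F : Set E3} (hF : IsEdge (Box o u) F) :
    ∃ k : Fin 3 × Bool × Bool, F = segment ℝ (o + bb k.2.1 • u (k.1 + 1) + bb k.2.2 • u (k.1 + 2))
      (o + bb k.2.1 • u (k.1 + 1) + bb k.2.2 • u (k.1 + 2) + u k.1) := by
  obtain ⟨hex, x, y, hxy, hseg⟩ := hF
  have hxF : x ∈ F := by rw [hseg]; exact left_mem_segment _ _ _
  have hyF : y ∈ F := by rw [hseg]; exact right_mem_segment _ _ _
  obtain ⟨l, hl⟩ := hex ⟨x, hxF⟩
  have hconv : Convex ℝ F := by rw [hseg]; exact convex_segment _ _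
  have lsum : ∀ t : Fin 3 → ℝ, l (o + ∑ i, t i • u i) = l o + ∑ i, t i * l (u i) := by
    intro t
    rw [map_add, map_sum]
    simp only [map_smul, smul_eq_mul]
  -- changing one coordinate
  have upd : ∀ t : Fin 3 → ℝ, ∀ i r, ∑ j, Function.update t i r j * l (u j)
      = ∑ j, t j * l (u j) + (r - t i) * l (u i) := by
    intro t i r
    rw [← sub_eq_iff_eq_add', ← Finset.sum_sub_distrib, Finset.sum_eq_single i]
    · simp; ring
    · intro j _ hj
      simp [Function.update_of_ne hj]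
    · intro h; exact absurd (Finset.mem_univ i) h
  have memu : ∀ t : Fin 3 → ℝ, (∀ i, 0 ≤ t i ∧ t i ≤ 1) → ∀ i r, 0 ≤ r → r ≤ 1 →
      ∀ j, 0 ≤ Function.update t i r j ∧ Function.update t i r j ≤ 1 := by
    intro t ht i r h0 h1 j
    by_cases hj : j = i
    · subst hj; simp [h0, h1]
    · rw [Function.update_of_ne hj]; exact ht j
  have memF : ∀ t : Fin 3 → ℝ, (∀ i, 0 ≤ t i ∧ t i ≤ 1) → o + ∑ i, t i • u i ∈ F →
      ∀ i r, 0 ≤ r → r ≤ 1 → (r - t i) * l (u i) ≤ 0 := by
    intro t ht hF i r h0 h1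
    rw [hl] at hF
    have := hF.2 (o + ∑ j, Function.update t i r j • u j) ⟨_, memu t ht i r h0 h1, rfl⟩
    rw [lsum, lsum, upd] at this
    linarith
  have posF : ∀ t : Fin 3 → ℝ, (∀ i, 0 ≤ t i ∧ t i ≤ 1) → o + ∑ i, t i • u i ∈ F →
      ∀ i, 0 < l (u i) → t i = 1 := by
    intro t ht hF i hi
    have h1 := memF t ht hF i 1 zero_le_one le_rfl
    have h2 := (ht i).2
    by_contra hne
    have : 0 < 1 - t i := by
      rcases h2.lt_or_eq with h | h
      · linarith
      · exact absurd h hne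
    have := mul_pos this hi
    linarith
  have negF : ∀ t : Fin 3 → ℝ, (∀ i, 0 ≤ t i ∧ t i ≤ 1) → o + ∑ i, t i • u i ∈ F →
      ∀ i, l (u i) < 0 → t i = 0 := by
    intro t ht hF i hi
    have h1 := memF t ht hF i 0 le_rfl zero_le_one
    have h2 := (ht i).1
    by_contra hne
    have : 0 < t i := lt_of_le_of_ne h2 (Ne.symm hne)
    have := mul_neg_of_pos_of_neg this hi
    linarith
  have hxP : x ∈ Box o u := by rw [hl] at hxF; exact hxF.1
  have hyP : y ∈ Box o u := by rw [hl] at hyF; exact hyF.1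
  obtain ⟨s, hs, hxs⟩ := hxP
  obtain ⟨t, ht, hyt⟩ := hyP
  have hsF : o + ∑ i, s i • u i ∈ F := by rw [← hxs]; exact hxF
  have htF : o + ∑ i, t i • u i ∈ F := by rw [← hyt]; exact hyF
  -- a coordinate in which the endpoints differ
  obtain ⟨i, hi⟩ : ∃ i, s i ≠ t i := by
    by_contra hc
    push Not at hc
    apply hxy
    rw [hxs, hyt]
    simp only [hc]
  have li : l (u i) = 0 := by
    rcases lt_trichotomy (l (u i)) 0 with h | h | h
    · exact absurd ((negF s hs hsF i h).trans (negF t ht htF i h).symm) hi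
    · exact h
    · exact absurd ((posF s hs hsF i h).trans (posF t ht htF i h).symm) hi
  -- the other two functionals do not vanish
  have lj : ∀ j, j ≠ i → l (u j) ≠ 0 := by
    intro j hj h0
    have inF : ∀ p q : ℝ, 0 ≤ p → p ≤ 1 → 0 ≤ q → q ≤ 1 →
        o + ∑ m, Function.update (Function.update s i p) j q m • u m ∈ F := by
      intro p q p0 p1 q0 q1
      rw [hl] at hsF ⊢
      refine ⟨⟨_, memu _ (memu s hs i p p0 p1) j q q0 q1, rfl⟩, fun z hz => ?_⟩
      have := hsF.2 z hz
      rw [lsum, upd, upd, li, h0, mul_zero, mul_zero, add_zero, add_zero, ← lsum]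
      exact this
    have sub_seg : ∀ z ∈ F, ∀ w ∈ F, ∃ c : ℝ, z - w = c • (y - x) := by
      intro z hz w hw
      rw [hseg, segment_eq_image'] at hz hw
      obtain ⟨c, _, rfl⟩ := hz
      obtain ⟨d, _, rfl⟩ := hw
      exact ⟨c - d, by module⟩
    have e1 : (o + ∑ m, Function.update (Function.update s i 1) j 0 m • u m)
        - (o + ∑ m, Function.update (Function.update s i 0) j 0 m • u m) = u i := by
      rw [add_sub_add_left_eq_sub, ← Finset.sum_sub_distrib, Finset.sum_eq_single i]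
      · rw [Function.update_of_ne (Ne.symm hj), Function.update_of_ne (Ne.symm hj)]
        simp
      · intro m _ hm
        by_cases hmj : m = j
        · subst hmj; simp
        · rw [Function.update_of_ne hmj, Function.update_of_ne hmj, Function.update_of_ne hm,
            Function.update_of_ne hm, sub_self]
      · intro h; exact absurd (Finset.mem_univ i) h
    have e2 : (o + ∑ m, Function.update (Function.update s i 0) j 1 m • u m)
        - (o + ∑ m, Function.update (Function.update s i 0) j 0 m • u m) = u j := by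
      rw [add_sub_add_left_eq_sub, ← Finset.sum_sub_distrib, Finset.sum_eq_single j]
      · simp
      · intro m _ hm
        rw [Function.update_of_ne hm, Function.update_of_ne hm, sub_self]
      · intro h; exact absurd (Finset.mem_univ j) h
    obtain ⟨c, hc⟩ := sub_seg _ (inF 1 0 zero_le_one le_rfl le_rfl zero_le_one) _
      (inF 0 0 le_rfl zero_le_one le_rfl zero_le_one)
    obtain ⟨d, hd⟩ := sub_seg _ (inF 0 1 le_rfl zero_le_one zero_le_one le_rfl) _
      (inF 0 0 le_rfl zero_le_one le_rfl zero_le_one)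
    rw [e1] at hc
    rw [e2] at hd
    have h1 := ho i j (Ne.symm hj)
    rw [hc, hd, inner_smul_left, inner_smul_right, real_inner_self_eq_norm_sq] at h1
    have h2 : ‖y - x‖ ≠ 0 := norm_ne_zero_iff.mpr (sub_ne_zero.mpr (Ne.symm hxy))
    have h3 : c * (d * ‖y - x‖^2) = 0 := by simpa using h1
    have ni := hn i
    have nj := hn j
    rcases mul_eq_zero.mp h3 with h | h
    · rw [hc, h, zero_smul, norm_zero] at ni; linarith
    · rcases mul_eq_zero.mp h with h | h
      · rw [hd, h, zero_smul, norm_zero] at nj; linarith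
      · exact h2 (pow_eq_zero_iff two_ne_zero |>.mp h)
  have i1 : i + 1 ≠ i := by fin_cases i <;> decide
  have i2 : i + 2 ≠ i := by fin_cases i <;> decide
  classical
  refine ⟨(i, decide (0 < l (u (i + 1))), decide (0 < l (u (i + 2)))), ?_⟩
  have bbl : ∀ j, j ≠ i → bb (decide (0 < l (u j))) * l (u j) = max (l (u j)) 0 := by
    intro j hj
    rcases lt_or_gt_of_ne (lj j hj) with h | h
    · simp [bb, not_lt.mpr h.le, max_eq_right h.le]
    · simp [bb, h, max_eq_left h.le]
  have coord : ∀ t : Fin 3 → ℝ, (∀ i, 0 ≤ t i ∧ t i ≤ 1) → o + ∑ i, t i • u i ∈ F →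
      ∀ j, j ≠ i → t j = bb (decide (0 < l (u j))) := by
    intro t ht hF j hj
    rcases lt_or_gt_of_ne (lj j hj) with h | h
    · rw [negF t ht hF j h]; simp [bb, not_lt.mpr h.le]
    · rw [posF t ht hF j h]; simp [bb, h]
  set β := bb (decide (0 < l (u (i + 1)))) with hβ
  set γ := bb (decide (0 < l (u (i + 2)))) with hγ
  show F = segment ℝ (o + β • u (i + 1) + γ • u (i + 2)) (o + β • u (i + 1) + γ • u (i + 2) + u i)
  have vert : ∀ r : ℝ, 0 ≤ r → r ≤ 1 → o + β • u (i + 1) + γ • u (i + 2) + r • u i ∈ F := by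
    intro r r0 r1
    rw [hl]
    have e : o + β • u (i + 1) + γ • u (i + 2) + r • u i
        = o + ∑ j, (if j = i then r else if j = i + 1 then β else γ) • u j := by
      rw [sum_i i]
      have i12 : i + 2 ≠ i + 1 := by fin_cases i <;> decide
      simp only [if_true, if_neg i1, if_neg i2, if_neg i12]
      abel
    refine ⟨⟨_, fun j => ?_, e⟩, ?_⟩
    · split_ifs
      · exact ⟨r0, r1⟩
      · exact bb_mem _
      · exact bb_mem _
    · rintro _ ⟨t, ht, rfl⟩
      have h1 : l (o + ∑ j, t j • u j) = l o + t i * l (u i) + t (i + 1) * l (u (i + 1))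
          + t (i + 2) * l (u (i + 2)) := by
        rw [sum_i i]
        simp only [map_add, map_smul, smul_eq_mul]
        ring
      rw [h1]
      simp only [map_add, map_smul, smul_eq_mul]
      rw [li, hβ, hγ, bbl _ i1, bbl _ i2]
      have k : ∀ t m : ℝ, 0 ≤ t → t ≤ 1 → t * m ≤ max m 0 := by
        intro t m t0 t1
        rcases le_total m 0 with h | h
        · exact (mul_nonpos_of_nonneg_of_nonpos t0 h).trans (le_max_right _ _)
        · calc t * m ≤ 1 * m := mul_le_mul_of_nonneg_right t1 h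
            _ = m := one_mul m
            _ ≤ max m 0 := le_max_left _ _
      have := k _ (l (u (i + 1))) (ht (i + 1)).1 (ht (i + 1)).2
      have := k _ (l (u (i + 2))) (ht (i + 2)).1 (ht (i + 2)).2
      linarith
  apply Subset.antisymm
  · intro z hz
    have hzP : z ∈ Box o u := by rw [hl] at hz; exact hz.1
    obtain ⟨t, ht, rfl⟩ := hzP
    have c1 := coord t ht hz (i + 1) i1
    have c2 := coord t ht hz (i + 2) i2
    rw [segment_eq_image']
    refine ⟨t i, ht i, ?_⟩
    rw [sum_i i, c1, c2, ← hβ, ← hγ]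
    module
  · have v0 := vert 0 le_rfl zero_le_one
    have v1 := vert 1 zero_le_one le_rfl
    rw [zero_smul, add_zero] at v0
    rw [one_smul] at v1
    exact hconv.segment_subset v0 v1

lemma zeta1_box {o : E3} {u : Fin 3 → E3} {a : ℝ} (ha : 0 < a) (hn : ∀ i, ‖u i‖ = a)
    (ho : ∀ i j, i ≠ j → inner ℝ (u i) (u j) = 0) :
    zeta1 (Box o u) ≤ ENNReal.ofReal (12 * a) := by
  choose k hk using fun F : {F : Set E3 // IsEdge (Box o u) F} => box_edge ha hn ho F.2
  have hinj : Function.Injective k := by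
    intro F G h
    apply Subtype.ext
    rw [hk F, hk G, h]
  have hd : ∀ F : {F : Set E3 // IsEdge (Box o u) F}, Metric.ediam F.1 = ENNReal.ofReal a := by
    intro F
    rw [hk F, ediam_seg, edist_dist, dist_eq_norm, ← hn (k F).1, ← norm_neg]
    congr 2
    abel
  unfold zeta1
  calc ∑' F : {F : Set E3 // IsEdge (Box o u) F}, Metric.ediam F.1
      = ∑' F : {F : Set E3 // IsEdge (Box o u) F}, (fun _ : Fin 3 × Bool × Bool => ENNReal.ofReal a) (k F) := by
        refine tsum_congr hd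
    _ ≤ ∑' _ : Fin 3 × Bool × Bool, ENNReal.ofReal a :=
        ENNReal.tsum_comp_le_tsum_of_injective hinj _
    _ = ENNReal.ofReal (12 * a) := by
        rw [tsum_fintype, Finset.sum_const, Finset.card_univ, nsmul_eq_mul,
          ENNReal.ofReal_mul (by norm_num)]
        congr 1
        norm_num [Fintype.card_prod]

lemma det3_sq_orth {o : E3} {u : Fin 3 → E3} {a : ℝ} (hn : ∀ i, ‖u i‖ = a)
    (ho : ∀ i j, i ≠ j → inner ℝ (u i) (u j) = 0) : (det3 (u 0) (u 1) (u 2))^2 = (a^3)^2 := by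
  have in3 : ∀ x y : E3, inner ℝ x y = x 0 * y 0 + x 1 * y 1 + x 2 * y 2 := by
    intro x y
    rw [PiLp.inner_apply, Fin.sum_univ_three]
    simp
    ring
  have gram : (det3 (u 0) (u 1) (u 2))^2 = inner ℝ (u 0) (u 0) * inner ℝ (u 1) (u 1) * inner ℝ (u 2) (u 2)
      + 2 * inner ℝ (u 0) (u 1) * inner ℝ (u 1) (u 2) * inner ℝ (u 0) (u 2)
      - inner ℝ (u 0) (u 0) * (inner ℝ (u 1) (u 2))^2 - inner ℝ (u 1) (u 1) * (inner ℝ (u 0) (u 2))^2
      - inner ℝ (u 2) (u 2) * (inner ℝ (u 0) (u 1))^2 := by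
    simp only [in3, det3]
    ring
  rw [gram, ho 0 1 (by decide), ho 1 2 (by decide), ho 0 2 (by decide), real_inner_self_eq_norm_sq,
    real_inner_self_eq_norm_sq, real_inner_self_eq_norm_sq, hn, hn, hn]
  ring

lemma volume_unit : volume {t : E3 | ∀ i, 0 ≤ t i ∧ t i ≤ 1} = 1 := by
  have h := (EuclideanSpace.volume_preserving_symm_measurableEquiv_toLp (Fin 3))
  have h1 : {t : E3 | ∀ i, 0 ≤ t i ∧ t i ≤ 1} = (MeasurableEquiv.toLp 2 (Fin 3 → ℝ)).symm ⁻¹'
      (Set.pi univ fun _ => Icc (0:ℝ) 1) := by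
    ext t
    simp only [mem_setOf_eq, mem_preimage, mem_pi, mem_univ, true_implies, mem_Icc]
    rfl
  rw [h1, h.measure_preimage_equiv, volume_pi_pi]
  simp

lemma volume_box {o : E3} {u : Fin 3 → E3} {a : ℝ} (ha : 0 < a) (hn : ∀ i, ‖u i‖ = a)
    (ho : ∀ i j, i ≠ j → inner ℝ (u i) (u j) = 0) :
    volume (Box o u) = ENNReal.ofReal (a^3) := by
  have h1 : Box o u = (fun x => o + x) '' (triE (u 0) (u 1) (u 2) '' {t : E3 | ∀ i, 0 ≤ t i ∧ t i ≤ 1}) := by
    ext x
    constructor
    · rintro ⟨t, ht, rfl⟩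
      refine ⟨_, ⟨WithLp.toLp 2 t, ht, rfl⟩, ?_⟩
      show o + triE (u 0) (u 1) (u 2) (WithLp.toLp 2 t) = _
      rw [triE_apply, Fin.sum_univ_three]
    · rintro ⟨_, ⟨t, ht, rfl⟩, rfl⟩
      refine ⟨fun i => t i, ht, ?_⟩
      show o + triE (u 0) (u 1) (u 2) t = _
      rw [triE_apply, Fin.sum_univ_three]
  rw [h1, image_add_left, measure_preimage_add, Measure.addHaar_image_linearMap, det_triE,
    volume_unit, mul_one]
  congr 1
  have := det3_sq_orth (o := o) hn ho
  rw [sq_eq_sq_iff_abs_eq_abs, abs_of_pos (a := a^3) (by positivity)] at this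
  exact this

theorem cube_eq {P : Set E3} (h : IsCube P) : zeta1 P ^ 3 ≤ 1728 * volume P := by
  obtain ⟨o, u, a, ha, hn, ho, rfl⟩ := h
  rw [volume_box ha hn ho]
  calc zeta1 (Box o u) ^ 3 ≤ (ENNReal.ofReal (12 * a))^3 := by
        gcongr
        exact zeta1_box ha hn ho
    _ = ENNReal.ofReal (1728 * a^3) := by
        rw [← ENNReal.ofReal_pow (by positivity)]
        congr 1
        ring
    _ = 1728 * ENNReal.ofReal (a^3) := by
        rw [ENNReal.ofReal_mul (by norm_num)]
        norm_num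

end Pool.Agent.Work.MP_3892ce_cube_h9
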