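import Pool.Agent.Work.MP_3892ce_cube_h9.Ident

/-! # Polytopes which are combinatorially equivalent to the cube -/

set_option autoImplicit false

namespace Pool.Agent.Work.MP_3892ce_cube_h9

open Pool.Agent.Work.MP_3892ce_gt MeasureTheory Set

/-- `P` is the convex hull of eight points `v ε` (`ε ∈ {0,1}^3`) and the intersection of six
half-spaces `⟨n i b, x⟩ ≤ c i b` (`i = 1,2,3`, `b ∈ {0,1}`), and `v ε` lies on the boundary plane
of the half-space `(i, b)` if and only if `ε i = b`. -/
def CubeData (P : Set E3) (v : (Fin 3 → Bool) → E3) (n : Fin 3 → Bool → E3)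
    (c : Fin 3 → Bool → ℝ) : Prop :=
  P = convexHull ℝ (range v) ∧ P = {x | ∀ i b, inner ℝ (n i b) x ≤ c i b} ∧
    ∀ ε i b, inner ℝ (n i b) (v ε) = c i b ↔ ε i = b

/-- polytopes combinatorially equivalent to the cube -/
def IsCombCube (P : Set E3) : Prop := ∃ v n c, CubeData P v n c

section hull

variable {ι : Type*} [Fintype ι]

lemma mem_hull_range (v : ι → E3) {x : E3} (hx : x ∈ convexHull ℝ (range v)) :
    ∃ w : ι → ℝ, (∀ i, 0 ≤ w i) ∧ ∑ i, w i = 1 ∧ ∑ i, w i • v i = x := by
  classical
  have h : convexHull ℝ (range v) ⊆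
      {x | ∃ w : ι → ℝ, (∀ i, 0 ≤ w i) ∧ ∑ i, w i = 1 ∧ ∑ i, w i • v i = x} := by
    apply convexHull_min
    · rintro _ ⟨i, rfl⟩
      refine ⟨Pi.single i 1, fun j => ?_, ?_, ?_⟩
      · by_cases h : j = i
        · subst h; simp
        · simp [h]
      · simp
      · simp [Pi.single_apply, ite_smul]
    · rintro x ⟨w, hw, hw1, rfl⟩ y ⟨w', hw', hw1', rfl⟩ a b ha hb hab
      refine ⟨fun i => a * w i + b * w' i, fun i => ?_, ?_, ?_⟩
      · have := hw i; have := hw' i; positivity
      · rw [Finset.sum_add_distrib, ← Finset.mul_sum, ← Finset.mul_sum, hw1, hw1']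
        linarith
      · rw [Finset.smul_sum, Finset.smul_sum, ← Finset.sum_add_distrib]
        refine Finset.sum_congr rfl fun i _ => ?_
        module
  exact h hx

end hull

variable {P : Set E3} {v : (Fin 3 → Bool) → E3} {n : Fin 3 → Bool → E3} {c : Fin 3 → Bool → ℝ}

namespace CubeData

lemma mem (h : CubeData P v n c) (ε : Fin 3 → Bool) : v ε ∈ P := by
  rw [h.1]; exact subset_convexHull _ _ ⟨ε, rfl⟩

lemma le (h : CubeData P v n c) {x : E3} (hx : x ∈ P) (i : Fin 3) (b : Bool) :
    inner ℝ (n i b) x ≤ c i b := by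
  rw [h.2.1] at hx; exact hx i b

lemma eq (h : CubeData P v n c) {ε : Fin 3 → Bool} {i : Fin 3} {b : Bool} (hb : ε i = b) :
    inner ℝ (n i b) (v ε) = c i b := (h.2.2 ε i b).mpr hb

lemma lt (h : CubeData P v n c) {ε : Fin 3 → Bool} {i : Fin 3} {b : Bool} (hb : ε i ≠ b) :
    inner ℝ (n i b) (v ε) < c i b :=
  lt_of_le_of_ne (h.le (h.mem ε) i b) (fun e => hb ((h.2.2 ε i b).mp e))

lemma convex (h : CubeData P v n c) : Convex ℝ P := by rw [h.1]; exact convex_convexHull _ _

/-- points of `P` on two of the planes -/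
lemma face (h : CubeData P v n c) {x : E3} (hx : x ∈ P) (S : Set (Fin 3 × Bool))
    (hS : ∀ s ∈ S, inner ℝ (n s.1 s.2) x = c s.1 s.2) :
    x ∈ convexHull ℝ (v '' {ε | ∀ s ∈ S, ε s.1 = s.2}) := by
  classical
  rw [h.1] at hx
  obtain ⟨w, hw, hw1, rfl⟩ := mem_hull_range v hx
  have hz : ∀ ε, ε ∉ {ε : Fin 3 → Bool | ∀ s ∈ S, ε s.1 = s.2} → w ε = 0 := by
    intro ε hε
    simp only [mem_setOf_eq, not_forall] at hε
    obtain ⟨s, hs, hne⟩ := hε
    have h1 := hS s hs
    rw [inner_sum] at h1
    have h2 : ∑ ε, w ε * (c s.1 s.2 - inner ℝ (n s.1 s.2) (v ε)) = 0 := by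
      simp only [mul_sub]
      rw [Finset.sum_sub_distrib, ← Finset.sum_mul, hw1, one_mul]
      simp only [inner_smul_right] at h1
      linarith
    have h3 := (Finset.sum_eq_zero_iff_of_nonneg (fun ε _ => mul_nonneg (hw ε)
      (sub_nonneg.mpr (h.le (h.mem ε) s.1 s.2)))).mp h2 ε (Finset.mem_univ _)
    rcases mul_eq_zero.mp h3 with h4 | h4
    · exact h4
    · have := h.lt hne
      linarith
  have h1 : ∑ ε, w ε • v ε = ∑ ε ∈ Finset.univ.filter
      (fun ε => ε ∈ {ε : Fin 3 → Bool | ∀ s ∈ S, ε s.1 = s.2}), w ε • v ε := by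
    rw [Finset.sum_filter]
    refine Finset.sum_congr rfl fun ε _ => ?_
    split_ifs with hh
    · rfl
    · rw [hz ε hh, zero_smul]
  have h2 : ∑ ε ∈ Finset.univ.filter
      (fun ε => ε ∈ {ε : Fin 3 → Bool | ∀ s ∈ S, ε s.1 = s.2}), w ε = 1 := by
    rw [Finset.sum_filter, ← hw1]
    refine Finset.sum_congr rfl fun ε _ => ?_
    split_ifs with hh
    · rfl
    · rw [hz ε hh]
  rw [h1]
  refine (convex_convexHull ℝ _).sum_mem (fun ε _ => hw ε) h2 fun ε hε => ?_
  exact subset_convexHull _ _ ⟨ε, (Finset.mem_filter.mp hε).2, rfl⟩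

lemma bounded (h : CubeData P v n c) : Bornology.IsBounded P := by
  rw [h.1, isBounded_convexHull]
  exact (finite_range v).isBounded

/-- radial projection from the vertex `v 0` to the union of the three opposite facets -/
lemma radial (h : CubeData P v n c) {x : E3} (hx : x ∈ P) :
    ∃ i, ∃ y ∈ P, inner ℝ (n i true) y = c i true ∧
      ∃ t : ℝ, 0 ≤ t ∧ t ≤ 1 ∧ x = v (fun _ => false) + t • (y - v (fun _ => false)) := by
  set o := v (fun _ => false) with ho
  have ho1 : ∀ i, inner ℝ (n i true) o < c i true := fun i => h.lt (by simp)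
  have ho0 : ∀ i, inner ℝ (n i false) o = c i false := fun i => h.eq rfl
  let g : Fin 3 → ℝ := fun i =>
    (inner ℝ (n i true) x - inner ℝ (n i true) o) / (c i true - inner ℝ (n i true) o)
  obtain ⟨i0, hi0⟩ := Finite.exists_max g
  have gle : ∀ i, g i ≤ 1 := by
    intro i
    show (_ : ℝ) / _ ≤ 1
    rw [div_le_one (by linarith [ho1 i])]
    linarith [h.le hx i true]
  rcases le_or_gt (g i0) 0 with ht | ht
  · -- then `x = o`
    have hdir : ∀ i b, inner ℝ (n i b) (x - o) ≤ 0 := by
      intro i b
      cases b with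
      | false =>
        rw [inner_sub_right, ho0]
        linarith [h.le hx i false]
      | true =>
        have h1 : g i ≤ 0 := (hi0 i).trans ht
        have h2 : 0 < c i true - inner ℝ (n i true) o := by linarith [ho1 i]
        rw [inner_sub_right]
        by_contra hc
        push Not at hc
        have : 0 < g i := div_pos hc h2
        linarith
    have hray : ∀ s : ℝ, 0 ≤ s → o + s • (x - o) ∈ P := by
      intro s hs
      rw [h.2.1]
      intro i b
      rw [inner_add_right, inner_smul_right]
      have h1 := h.le (h.mem (fun _ => false)) i b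
      have h2 := mul_nonneg hs (neg_nonneg.mpr (hdir i b))
      rw [← ho] at h1
      linarith
    have hxo : x = o := by
      by_contra hne
      have hd : 0 < ‖x - o‖ := norm_pos_iff.mpr (sub_ne_zero.mpr hne)
      obtain ⟨M, hM⟩ := h.bounded.subset_closedBall o
      have h1 := hM (hray ((|M| + 1) / ‖x - o‖) (by positivity))
      rw [Metric.mem_closedBall, dist_eq_norm, add_sub_cancel_left, norm_smul, Real.norm_eq_abs,
        abs_of_nonneg (by positivity), div_mul_cancel₀ _ hd.ne'] at h1
      linarith [le_abs_self M]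
    refine ⟨0, v (fun _ => true), h.mem _, h.eq rfl, 0, le_rfl, zero_le_one, ?_⟩
    rw [hxo, zero_smul, add_zero]
  · refine ⟨i0, o + (g i0)⁻¹ • (x - o), ?_, ?_, g i0, ht.le, gle i0, ?_⟩
    · rw [h.2.1]
      intro i b
      rw [inner_add_right, inner_smul_right, inner_sub_right]
      cases b with
      | false =>
        rw [ho0]
        have h1 := h.le hx i false
        have h2 : 0 ≤ (g i0)⁻¹ * (c i false - inner ℝ (n i false) x) :=
          mul_nonneg (inv_nonneg.mpr ht.le) (by linarith)
        have h3 : (g i0)⁻¹ * (inner ℝ (n i false) x - c i false) = -((g i0)⁻¹ * (c i false - inner ℝ (n i false) x)) := by ring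
        rw [h3]; linarith
      | true =>
        have h1 : 0 < c i true - inner ℝ (n i true) o := by linarith [ho1 i]
        have h2 : inner ℝ (n i true) x - inner ℝ (n i true) o
            ≤ g i0 * (c i true - inner ℝ (n i true) o) := by
          have := hi0 i
          rwa [show g i = (inner ℝ (n i true) x - inner ℝ (n i true) o) /
            (c i true - inner ℝ (n i true) o) from rfl, div_le_iff₀ h1] at this
        have h3 : (g i0)⁻¹ * (inner ℝ (n i true) x - inner ℝ (n i true) o)
            ≤ (g i0)⁻¹ * (g i0 * (c i true - inner ℝ (n i true) o)) :=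
          mul_le_mul_of_nonneg_left h2 (inv_nonneg.mpr ht.le)
        rw [← mul_assoc, inv_mul_cancel₀ ht.ne', one_mul] at h3
        linarith
    · rw [inner_add_right, inner_smul_right, inner_sub_right]
      have h1 : 0 < c i0 true - inner ℝ (n i0 true) o := by linarith [ho1 i0]
      have h2 : inner ℝ (n i0 true) x - inner ℝ (n i0 true) o
            = g i0 * (c i0 true - inner ℝ (n i0 true) o) := by
        rw [show g i0 = (inner ℝ (n i0 true) x - inner ℝ (n i0 true) o) /
            (c i0 true - inner ℝ (n i0 true) o) from rfl, div_mul_cancel₀ _ h1.ne']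
      rw [h2, ← mul_assoc, inv_mul_cancel₀ ht.ne', one_mul]
      ring
    · rw [add_sub_cancel_left, smul_smul, mul_inv_cancel₀ ht.ne', one_smul]
      abel

end CubeData

/-! ### quadrilaterals -/

lemma quad_split {A B C D y : E3} {p q r s : ℝ} (hp : 0 < p) (hq : 0 < q) (hr : 0 < r)
    (hs : 0 < s) (h1 : p + q = r + s) (h2 : p • A + q • C = r • B + s • D)
    (hy : y ∈ tetS A B C D) (o : E3) {t : ℝ} (ht : 0 ≤ t) (ht1 : t ≤ 1) :
    o + t • (y - o) ∈ tetS o A B C ∪ tetS o A C D := by
  obtain ⟨a, b, c, d, ha, hb, hc, hd, hsum, rfl⟩ := hy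
  have h2' : q • C = r • B + s • D - p • A := by rw [← h2]; abel
  rcases le_total (b / r) (d / s) with hle | hle
  · -- eliminate `B`
    right
    have hb' : b / r * r = b := div_mul_cancel₀ _ hr.ne'
    have k0 : 0 ≤ b / r := div_nonneg hb hr.le
    have hd' : 0 ≤ d - b / r * s := by
      have : b / r * s ≤ d / s * s := mul_le_mul_of_nonneg_right hle hs.le
      rw [div_mul_cancel₀ _ hs.ne'] at this
      linarith
    have e : a • A + b • B + c • C + d • D
        = (a + b / r * p) • A + (c + b / r * q) • C + (d - b / r * s) • D := by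
      have : (b / r) • (q • C) = (b / r) • (r • B + s • D - p • A) := by rw [h2']
      have hB : b • B = (b / r) • (r • B) := by rw [smul_smul, hb']
      rw [hB]
      have h3 : (b / r) • (r • B) = (b / r) • (q • C) - (b / r) • (s • D) + (b / r) • (p • A) := by
        rw [this]; module
      rw [h3]
      module
    refine ⟨1 - t, t * (a + b / r * p), t * (c + b / r * q), t * (d - b / r * s), by linarith,
      by positivity, by positivity, mul_nonneg ht hd', ?_, ?_⟩
    · have : b / r * (p + q) = b / r * (r + s) := by rw [h1]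
      have h4 : (a + b / r * p) + (c + b / r * q) + (d - b / r * s) = 1 := by
        have : b / r * p + b / r * q = b / r * r + b / r * s := by linarith
        rw [hb'] at this
        linarith
      calc 1 - t + t * (a + b / r * p) + t * (c + b / r * q) + t * (d - b / r * s)
          = 1 - t + t * ((a + b / r * p) + (c + b / r * q) + (d - b / r * s)) := by ring
        _ = 1 := by rw [h4]; ring
    · rw [e]; module
  · -- eliminate `D`
    left
    have hd' : d / s * s = d := div_mul_cancel₀ _ hs.ne'
    have k0 : 0 ≤ d / s := div_nonneg hd hs.le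
    have hb' : 0 ≤ b - d / s * r := by
      have : d / s * r ≤ b / r * r := mul_le_mul_of_nonneg_right hle hr.le
      rw [div_mul_cancel₀ _ hr.ne'] at this
      linarith
    have e : a • A + b • B + c • C + d • D
        = (a + d / s * p) • A + (b - d / s * r) • B + (c + d / s * q) • C := by
      have : (d / s) • (q • C) = (d / s) • (r • B + s • D - p • A) := by rw [h2']
      have hD : d • D = (d / s) • (s • D) := by rw [smul_smul, hd']
      rw [hD]
      have h3 : (d / s) • (s • D) = (d / s) • (q • C) - (d / s) • (r • B) + (d / s) • (p • A) := by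
        rw [this]; module
      rw [h3]
      module
    refine ⟨1 - t, t * (a + d / s * p), t * (b - d / s * r), t * (c + d / s * q), by linarith,
      by positivity, mul_nonneg ht hb', by positivity, ?_, ?_⟩
    · have h4 : (a + d / s * p) + (b - d / s * r) + (c + d / s * q) = 1 := by
        have : d / s * p + d / s * q = d / s * r + d / s * s := by
          have := congrArg (fun z => d / s * z) h1
          simp only [mul_add] at this
          linarith
        rw [hd'] at this
        linarith
      calc 1 - t + t * (a + d / s * p) + t * (b - d / s * r) + t * (c + d / s * q)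
          = 1 - t + t * ((a + d / s * p) + (b - d / s * r) + (c + d / s * q)) := by ring
        _ = 1 := by rw [h4]; ring
    · rw [e]; module

lemma cramer (a b c d : E3) :
    det3 b c d • a - det3 a c d • b + det3 a b d • c - det3 a b c • d = 0 := by
  ext i
  fin_cases i <;> simp [det3] <;> ring

lemma det3_mul (n₁ n₂ n₃ a b c : E3) :
    det3 n₁ n₂ n₃ * det3 a b c =
      inner ℝ n₁ a * (inner ℝ n₂ b * inner ℝ n₃ c - inner ℝ n₂ c * inner ℝ n₃ b)
      - inner ℝ n₁ b * (inner ℝ n₂ a * inner ℝ n₃ c - inner ℝ n₂ c * inner ℝ n₃ a)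
      + inner ℝ n₁ c * (inner ℝ n₂ a * inner ℝ n₃ b - inner ℝ n₂ b * inner ℝ n₃ a) := by
  simp only [inner3, det3]
  ring

/-- planarity -/
lemma det3_planar {m a b c : E3} (hm : m ≠ 0) (ha : inner ℝ m a = 0) (hb : inner ℝ m b = 0)
    (hc : inner ℝ m c = 0) : det3 a b c = 0 := by
  have key : ∀ i, det3 a b c * m i = 0 := by
    intro i
    rw [inner3] at ha hb hc
    have : det3 a b c * m i = det3 a b c * m i
        - (m 0 * a 0 + m 1 * a 1 + m 2 * a 2) * (![b 1 * c 2 - b 2 * c 1, b 2 * c 0 - b 0 * c 2, b 0 * c 1 - b 1 * c 0] i)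
        - (m 0 * b 0 + m 1 * b 1 + m 2 * b 2) * (![c 1 * a 2 - c 2 * a 1, c 2 * a 0 - c 0 * a 2, c 0 * a 1 - c 1 * a 0] i)
        - (m 0 * c 0 + m 1 * c 1 + m 2 * c 2) * (![a 1 * b 2 - a 2 * b 1, a 2 * b 0 - a 0 * b 2, a 0 * b 1 - a 1 * b 0] i) := by
      rw [ha, hb, hc]; ring
    rw [this]
    fin_cases i <;> simp [det3] <;> ring
  by_contra hne
  apply hm
  ext i
  rcases mul_eq_zero.mp (key i) with h | h
  · exact absurd h hne
  · simpa using h

/-- One of the three facets opposite to `o`: all determinants have the same sign, and the cone over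
the facet is covered by two tetrahedra. -/
lemma facet {o A B C D ni nj nk mi mk : E3} {ci ck : ℝ}
    (iA : inner ℝ ni (A - o) < 0)
    (jA : inner ℝ nj (A - o) = 0) (jB : inner ℝ nj (B - o) < 0) (jC : inner ℝ nj (C - o) < 0)
    (jD : inner ℝ nj (D - o) = 0)
    (kA : inner ℝ nk (A - o) = 0) (kB : inner ℝ nk (B - o) = 0) (kC : inner ℝ nk (C - o) < 0)
    (kD : inner ℝ nk (D - o) < 0)
    (mA : inner ℝ mi A = ci) (mB : inner ℝ mi B = ci) (mC : inner ℝ mi C = ci)
    (mD : inner ℝ mi D = ci) (mo : inner ℝ mi o < ci)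
    (lA : inner ℝ mk A < ck) (lB : inner ℝ mk B < ck) (lC : inner ℝ mk C = ck)
    (lD : inner ℝ mk D = ck) :
    det3 ni nj nk * det3 (A - o) (B - o) (C - o) < 0 ∧
    det3 ni nj nk * det3 (A - o) (C - o) (D - o) < 0 ∧
    det3 (B - A) (C - A) (D - A) = 0 ∧
    ∀ y ∈ tetS A B C D, ∀ t : ℝ, 0 ≤ t → t ≤ 1 →
      o + t • (y - o) ∈ tetS o A B C ∪ tetS o A C D := by
  have h1 : det3 ni nj nk * det3 (A - o) (B - o) (C - o) < 0 := by
    rw [det3_mul, jA, kA, kB]
    have := mul_pos_of_neg_of_neg iA jB
    have := mul_neg_of_pos_of_neg this kC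
    linarith
  have h2 : det3 ni nj nk * det3 (A - o) (C - o) (D - o) < 0 := by
    rw [det3_mul, jA, kA, jD]
    have := mul_pos_of_neg_of_neg iA jC
    have := mul_neg_of_pos_of_neg this kD
    linarith
  have mne : mi ≠ 0 := by
    rintro rfl
    rw [inner_zero_left] at mA mo
    linarith
  have h3 : det3 (B - A) (C - A) (D - A) = 0 := by
    refine det3_planar mne ?_ ?_ ?_ <;> rw [inner_sub_right] <;> linarith
  refine ⟨h1, h2, h3, ?_⟩
  set D1 := det3 (A - o) (B - o) (C - o)
  set D2 := det3 (A - o) (C - o) (D - o)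
  set D3 := det3 (B - o) (C - o) (D - o)
  set D4 := det3 (A - o) (B - o) (D - o)
  set N := det3 ni nj nk
  have rel : D3 • (A - o) - D2 • (B - o) + D4 • (C - o) - D1 • (D - o) = 0 := cramer _ _ _ _
  have hsum : D3 - D2 + D4 - D1 = 0 := by
    have e := congrArg (fun z => inner ℝ mi z) rel
    simp only [inner_add_right, inner_sub_right, inner_smul_right, inner_zero_right, mA, mB, mC,
      mD] at e
    have : (D3 - D2 + D4 - D1) * (ci - inner ℝ mi o) = 0 := by linarith
    rcases mul_eq_zero.mp this with h | h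
    · exact h
    · linarith
  have rel' : D3 • A - D2 • B + D4 • C - D1 • D = 0 := by
    have : D3 • A - D2 • B + D4 • C - D1 • D
      = (D3 • (A - o) - D2 • (B - o) + D4 • (C - o) - D1 • (D - o)) + (D3 - D2 + D4 - D1) • o := by
      module
    rw [this, rel, hsum]; simp
  have hD3 : N * D3 < 0 := by
    have e := congrArg (fun z => inner ℝ mk z) rel'
    simp only [inner_add_right, inner_sub_right, inner_smul_right, inner_zero_right, lC, lD] at e
    have e2 : D3 * (inner ℝ mk A - ck) = D2 * (inner ℝ mk B - ck) := by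
      have := congrArg (fun z => z * ck) hsum
      simp only [zero_mul] at this
      linarith
    have e3 : N * D3 * (inner ℝ mk A - ck) = N * D2 * (inner ℝ mk B - ck) := by
      rw [mul_assoc, e2]; ring
    have e4 : 0 < N * D2 * (inner ℝ mk B - ck) := mul_pos_of_neg_of_neg h2 (by linarith)
    rw [← e3] at e4
    by_contra hc
    push Not at hc
    have : N * D3 * (inner ℝ mk A - ck) ≤ 0 := mul_nonpos_of_nonneg_of_nonpos hc (by linarith)
    linarith
  have hD4 : N * D4 < 0 := by
    have e : D3 * inner ℝ nj (A - o) - D2 * inner ℝ nj (B - o) + D4 * inner ℝ nj (C - o)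
        - D1 * inner ℝ nj (D - o) = 0 := by
      rw [← inner_smul_right, ← inner_smul_right, ← inner_smul_right, ← inner_smul_right,
        ← inner_sub_right, ← inner_add_right, ← inner_sub_right, rel, inner_zero_right]
    rw [jA, jD] at e
    have e3 : N * D4 * inner ℝ nj (C - o) = N * D2 * inner ℝ nj (B - o) := by
      have : D4 * inner ℝ nj (C - o) = D2 * inner ℝ nj (B - o) := by linarith
      rw [mul_assoc, this]; ring
    have e4 : 0 < N * D2 * inner ℝ nj (B - o) := mul_pos_of_neg_of_neg h2 jB
    rw [← e3] at e4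
    by_contra hc
    push Not at hc
    have : N * D4 * inner ℝ nj (C - o) ≤ 0 := mul_nonpos_of_nonneg_of_nonpos hc jC.le
    linarith
  intro y hy t ht ht1
  refine quad_split (p := -(N * D3)) (q := -(N * D4)) (r := -(N * D2)) (s := -(N * D1))
    (by linarith) (by linarith) (by linarith) (by linarith) ?_ ?_ hy o ht ht1
  · have := congrArg (fun z => N * z) hsum
    simp only [mul_zero] at this
    linarith
  · have := congrArg (fun z => (-N) • z) rel'
    simp only [smul_zero] at this
    rw [← sub_eq_zero, ← this]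
    module

end Pool.Agent.Work.MP_3892ce_cube_h9
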