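import Pool.Agent.Work.MP_3892ce_cube_h9.Scalar
import Pool.Agent.Work.MP_3892ce_gt.Tet

/-! # The inequality for eight points -/

set_option autoImplicit false

namespace Pool.Agent.Work.MP_3892ce_cube_h9

open Pool.Agent.Work.MP_3892ce_gt

lemma inner3 (x y : E3) : inner ℝ x y = x 0 * y 0 + x 1 * y 1 + x 2 * y 2 := by
  rw [PiLp.inner_apply, Fin.sum_univ_three]
  simp
  ring

lemma normsq3 (x : E3) : ‖x‖^2 = x 0^2 + x 1^2 + x 2^2 := by
  rw [← real_inner_self_eq_norm_sq, inner3]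
  ring

/-- Hadamard -/
lemma det3_sq_le (x y z : E3) :
    (det3 x y z)^2 + ‖x‖^2 * (inner ℝ y z)^2 ≤ (‖x‖ * ‖y‖ * ‖z‖)^2 := by
  have h : (‖x‖ * ‖y‖ * ‖z‖)^2 = ‖x‖^2 * ‖y‖^2 * ‖z‖^2 := by ring
  rw [h, normsq3, normsq3, normsq3, inner3, det3]
  nlinarith [sq_nonneg (x 0 * (y 0 * z 1 - y 1 * z 0) + x 2 * (y 2 * z 1 - y 1 * z 2)),
    sq_nonneg (x 0 * (y 2 * z 0 - y 0 * z 2) - x 1 * (y 1 * z 2 - y 2 * z 1)),
    sq_nonneg (x 1 * (y 0 * z 1 - y 1 * z 0) - x 2 * (y 2 * z 0 - y 0 * z 2))]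

lemma det3_le (x y z : E3) : det3 x y z ≤ ‖x‖ * ‖y‖ * ‖z‖ := by
  apply le_of_abs_le
  apply abs_le_of_sq_le_sq' _ (by positivity) |> abs_le.mpr
  have := det3_sq_le x y z
  have h2 : 0 ≤ ‖x‖^2 * (inner ℝ y z)^2 := by positivity
  linarith

lemma det3_cyc (x y z : E3) : det3 x y z = det3 y z x := by
  unfold det3; ring

lemma det3_eq {x y z : E3} (h : det3 x y z = ‖x‖ * ‖y‖ * ‖z‖) (hx : x ≠ 0) :
    inner ℝ y z = 0 := by
  have h1 := det3_sq_le x y z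
  rw [h] at h1
  have h2 : ‖x‖^2 * (inner ℝ y z)^2 ≤ 0 := by linarith
  have h3 : 0 < ‖x‖^2 := by have := norm_pos_iff.mpr hx; positivity
  have h4 : (inner ℝ y z)^2 ≤ 0 := by
    by_contra hc
    push Not at hc
    have := mul_pos h3 hc
    linarith
  have h5 : (inner ℝ y z)^2 = 0 := le_antisymm h4 (sq_nonneg _)
  exact pow_eq_zero_iff (two_ne_zero) |>.mp h5

/-- Minkowski's inequality in the plane -/
lemma plane_mink {a b α β γ δ : ℝ} (ha : 0 ≤ a) (hb : 0 ≤ b) (h1 : α^2 + β^2 ≤ a^2)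
    (h2 : γ^2 + δ^2 ≤ b^2) : (α + γ)^2 + (β + δ)^2 ≤ (a + b)^2 := by
  have h : α * γ + β * δ ≤ a * b := by
    apply le_of_abs_le
    apply abs_le_of_sq_le_sq' _ (by positivity) |> abs_le.mpr
    have h3 : (α * γ + β * δ)^2 + (α * δ - β * γ)^2 = (α^2 + β^2) * (γ^2 + δ^2) := by ring
    have h4 : (α^2 + β^2) * (γ^2 + δ^2) ≤ a^2 * b^2 :=
      mul_le_mul h1 h2 (by positivity) (by positivity)
    nlinarith [sq_nonneg (α * δ - β * γ)]
  nlinarith

/-- reflection of the second vector in the line spanned by the unit vector `u` -/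
lemma refl_le (u e f : E3) (hu : ‖u‖ = 1) :
    (inner ℝ u (e + f))^2 + (‖e - f‖^2 - (inner ℝ u (e - f))^2) ≤ (‖e‖ + ‖f‖)^2 := by
  set g : E3 := (2 * inner ℝ u f) • u - f with hg
  have hgn : ‖g‖ = ‖f‖ := by
    have : ‖g‖^2 = ‖f‖^2 := by
      rw [hg, norm_sub_sq_real, norm_smul, inner_smul_left, hu]
      simp only [mul_one, Real.norm_eq_abs, sq_abs, conj_trivial]
      ring
    exact (pow_left_inj₀ (norm_nonneg _) (norm_nonneg _) two_ne_zero).mp this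
  have h1 : ‖e + g‖ ≤ ‖e‖ + ‖f‖ := by rw [← hgn]; exact norm_add_le _ _
  have h2 : ‖e + g‖^2 ≤ (‖e‖ + ‖f‖)^2 := by
    apply pow_le_pow_left₀ (norm_nonneg _) h1
  refine le_trans (le_of_eq ?_) h2
  have hu2 : u 0 ^2 + u 1^2 + u 2^2 = 1 := by rw [← normsq3, hu]; norm_num
  rw [hg, normsq3, normsq3, inner3, inner3, inner3]
  simp only [PiLp.add_apply, PiLp.sub_apply, PiLp.smul_apply, smul_eq_mul]
  linear_combination (-4) * (u 0 * f 0 + u 1 * f 1 + u 2 * f 2)^2 * hu2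

/-- for a unit vector `u`: `|det (u, a, b)| ≤ |a'| |b'|`, where the primes denote the components
orthogonal to `u` -/
lemma det3_unit (u a b : E3) (hu : ‖u‖ = 1) :
    (det3 u a b)^2 ≤ (‖a‖^2 - (inner ℝ u a)^2) * (‖b‖^2 - (inner ℝ u b)^2) := by
  have hu2 : u 0 ^2 + u 1^2 + u 2^2 = 1 := by rw [← normsq3, hu]; norm_num
  have key : (det3 u a b)^2 + (inner ℝ a b - inner ℝ u a * inner ℝ u b)^2
      = (‖a‖^2 - (inner ℝ u a)^2) * (‖b‖^2 - (inner ℝ u b)^2) := by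
    have gram : (det3 u a b)^2 = ‖u‖^2 * ‖a‖^2 * ‖b‖^2 + 2 * inner ℝ u a * inner ℝ a b * inner ℝ u b
        - ‖u‖^2 * (inner ℝ a b)^2 - ‖a‖^2 * (inner ℝ u b)^2 - ‖b‖^2 * (inner ℝ u a)^2 := by
      rw [normsq3, normsq3, normsq3, inner3, inner3, inner3, det3]
      ring
    rw [gram, hu]
    ring
  nlinarith [sq_nonneg (inner ℝ a b - inner ℝ u a * inner ℝ u b)]

lemma orth_nonneg (u a : E3) (hu : ‖u‖ = 1) : 0 ≤ ‖a‖^2 - (inner ℝ u a)^2 := by
  have h := abs_real_inner_le_norm u a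
  rw [hu, one_mul] at h
  have := sq_le_sq' (by linarith [neg_abs_le (inner ℝ u a), norm_nonneg a]) (le_of_abs_le h)
  have h3 : (inner ℝ u a)^2 ≤ ‖a‖^2 := by
    rw [← sq_abs (inner ℝ u a)]
    exact pow_le_pow_left₀ (abs_nonneg _) h 2
  linarith

/-- mean length of the four vectors `X ± r ± q (±) s` -/
noncomputable def mean4 (X r q s : E3) : ℝ :=
  (‖X + r + q + s‖ + ‖X - r - q + s‖ + ‖X + r - q - s‖ + ‖X - r + q - s‖) / 4

lemma mean4_swap (X r q s : E3) : mean4 X q r s = mean4 X r q s := by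
  unfold mean4
  have h1 : X + q + r + s = X + r + q + s := by abel
  have h2 : X - q - r + s = X - r - q + s := by abel
  have h3 : X + q - r - s = X - r + q - s := by abel
  have h4 : X - q + r - s = X + r - q - s := by abel
  rw [h1, h2, h3, h4]; ring

lemma mean4_nonneg (X r q s : E3) : 0 ≤ mean4 X r q s := by
  unfold mean4; positivity

lemma le_mean4 (X r q s : E3) : ‖X‖ ≤ mean4 X r q s := by
  unfold mean4
  have h : ‖(4:ℝ) • X‖ ≤ ‖X + r + q + s‖ + ‖X - r - q + s‖ + ‖X + r - q - s‖ + ‖X - r + q - s‖ := by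
    have e : (4:ℝ) • X = (X + r + q + s) + (X - r - q + s) + (X + r - q - s) + (X - r + q - s) := by
      module
    rw [e]
    exact (norm_add_le _ _).trans (add_le_add_left ((norm_add_le _ _).trans
      (add_le_add_left (norm_add_le _ _) _)) _)
  rw [norm_smul] at h
  norm_num at h
  linarith

lemma le_mean4' (X r q s : E3) : ‖r‖ ≤ mean4 X r q s := by
  unfold mean4
  have h : ‖(4:ℝ) • r‖ ≤ ‖X + r + q + s‖ + ‖X - r - q + s‖ + ‖X + r - q - s‖ + ‖X - r + q - s‖ := by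
    have e : (4:ℝ) • r = (X + r + q + s) - (X - r - q + s) + (X + r - q - s) - (X - r + q - s) := by
      module
    rw [e]
    refine (norm_sub_le _ _).trans (add_le_add_left ((norm_add_le _ _).trans
      (add_le_add_left (norm_sub_le _ _) _)) _)
  rw [norm_smul] at h
  norm_num at h
  linarith

lemma le_mean4'' (X r q s : E3) : ‖q‖ ≤ mean4 X r q s := by
  rw [← mean4_swap]; exact le_mean4' _ _ _ _

/-- the key estimate -/
lemma key_unit (u X r q s : E3) (hu : ‖u‖ = 1) (hX : X = ‖X‖ • u) :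
    ‖X‖^2 + 2 * |det3 u r q| ≤ (mean4 X r q s)^2 := by
  -- the components orthogonal to `u` of `r + q` and `r - q`
  set m₁ := Real.sqrt (‖r + q‖^2 - (inner ℝ u (r + q))^2) with hm₁
  set m₂ := Real.sqrt (‖r - q‖^2 - (inner ℝ u (r - q))^2) with hm₂
  have h1 : m₁^2 = ‖r + q‖^2 - (inner ℝ u (r + q))^2 := Real.sq_sqrt (orth_nonneg _ _ hu)
  have h2 : m₂^2 = ‖r - q‖^2 - (inner ℝ u (r - q))^2 := Real.sq_sqrt (orth_nonneg _ _ hu)
  have m10 : 0 ≤ m₁ := Real.sqrt_nonneg _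
  have m20 : 0 ≤ m₂ := Real.sqrt_nonneg _
  have hD : 2 * |det3 u r q| ≤ m₁ * m₂ := by
    have h3 := det3_unit u (r + q) (r - q) hu
    have h4 : det3 u (r + q) (r - q) = - 2 * det3 u r q := by
      unfold det3
      simp only [PiLp.add_apply, PiLp.sub_apply]
      ring
    rw [h4, ← h1, ← h2] at h3
    have h5 : (2 * |det3 u r q|)^2 ≤ (m₁ * m₂)^2 := by
      rw [mul_pow, sq_abs]
      nlinarith
    exact (pow_le_pow_iff_left₀ (by positivity) (by positivity) two_ne_zero).mp h5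
  have hXu : inner ℝ u X = ‖X‖ := by
    nth_rewrite 1 [hX]
    rw [inner_smul_right, real_inner_self_eq_norm_sq, hu]
    ring
  -- first pair
  have p1 := refl_le u (X + r + q + s) (X - r - q + s) hu
  have e1 : inner ℝ u ((X + r + q + s) + (X - r - q + s)) = 2 * (‖X‖ + inner ℝ u s) := by
    have : (X + r + q + s) + (X - r - q + s) = (2:ℝ) • X + (2:ℝ) • s := by module
    rw [this, inner_add_right, inner_smul_right, inner_smul_right, hXu]; ring
  have e2 : ‖(X + r + q + s) - (X - r - q + s)‖^2 - (inner ℝ u ((X + r + q + s) - (X - r - q + s)))^2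
      = (2 * m₁)^2 := by
    have : (X + r + q + s) - (X - r - q + s) = (2:ℝ) • (r + q) := by module
    rw [this, norm_smul, inner_smul_right, mul_pow, mul_pow, mul_pow, h1]
    simp
    ring
  rw [e1, e2] at p1
  have p2 := refl_le u (X + r - q - s) (X - r + q - s) hu
  have e3 : inner ℝ u ((X + r - q - s) + (X - r + q - s)) = 2 * (‖X‖ - inner ℝ u s) := by
    have : (X + r - q - s) + (X - r + q - s) = (2:ℝ) • X - (2:ℝ) • s := by module
    rw [this, inner_sub_right, inner_smul_right, inner_smul_right, hXu]; ring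
  have e4 : ‖(X + r - q - s) - (X - r + q - s)‖^2 - (inner ℝ u ((X + r - q - s) - (X - r + q - s)))^2
      = (2 * m₂)^2 := by
    have : (X + r - q - s) - (X - r + q - s) = (2:ℝ) • (r - q) := by module
    rw [this, norm_smul, inner_smul_right, mul_pow, mul_pow, mul_pow, h2]
    simp
    ring
  rw [e3, e4] at p2
  have p3 := plane_mink (by positivity) (by positivity) p1 p2
  have p4 : (mean4 X r q s)^2 = ((‖X + r + q + s‖ + ‖X - r - q + s‖) + (‖X + r - q - s‖ + ‖X - r + q - s‖))^2 / 16 := by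
    unfold mean4; ring
  rw [p4]
  nlinarith [sq_nonneg (m₁ - m₂)]

lemma key (X r q s : E3) :
    det3 X r q / 3 ≤ ‖X‖ * ((mean4 X r q s)^2 - ‖X‖^2) / 6 := by
  by_cases hX : X = 0
  · subst hX
    simp [det3]
  have hn : 0 < ‖X‖ := norm_pos_iff.mpr hX
  have hu : ‖(‖X‖⁻¹ • X : E3)‖ = 1 := by
    rw [norm_smul, norm_inv, norm_norm]; field_simp
  have hXu : X = ‖X‖ • (‖X‖⁻¹ • X) := by
    rw [smul_smul, mul_inv_cancel₀ hn.ne', one_smul]
  have h := key_unit (‖X‖⁻¹ • X) X r q s hu hXu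
  have hd : det3 X r q = ‖X‖ * det3 (‖X‖⁻¹ • X) r q := by
    unfold det3
    simp only [PiLp.smul_apply, smul_eq_mul]
    field_simp
  have h1 : det3 X r q ≤ ‖X‖ * |det3 (‖X‖⁻¹ • X) r q| := by
    rw [hd]
    exact mul_le_mul_of_nonneg_left (le_abs_self _) hn.le
  have h2 : 2 * (‖X‖ * |det3 (‖X‖⁻¹ • X) r q|) ≤ ‖X‖ * ((mean4 X r q s)^2 - ‖X‖^2) := by
    have : 2 * |det3 (‖X‖⁻¹ • X) r q| ≤ (mean4 X r q s)^2 - ‖X‖^2 := by linarith
    have := mul_le_mul_of_nonneg_left this hn.le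
    linarith
  linarith

/-- volume of the trilinear cube -/
noncomputable def V7 (X Y Z p q r : E3) : ℝ :=
  det3 X Y Z + (det3 X r q + det3 r Y p + det3 q p Z) / 3

/-- equality in the triangle inequality -/
lemma mean4_eq {X r q s : E3} (hX : X ≠ 0) (h : ‖X‖ = mean4 X r q s) :
    (∃ c : ℝ, r = c • X) ∧ (∃ c : ℝ, q = c • X) ∧ (∃ c : ℝ, s = c • X) := by
  have hn : 0 < ‖X‖ := norm_pos_iff.mpr hX
  have i1 := real_inner_le_norm (X + r + q + s) X
  have i2 := real_inner_le_norm (X - r - q + s) X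
  have i3 := real_inner_le_norm (X + r - q - s) X
  have i4 := real_inner_le_norm (X - r + q - s) X
  have hs : inner ℝ (X + r + q + s) X + inner ℝ (X - r - q + s) X + inner ℝ (X + r - q - s) X
      + inner ℝ (X - r + q - s) X = 4 * (‖X‖ * ‖X‖) := by
    rw [← inner_add_left, ← inner_add_left, ← inner_add_left]
    have : X + r + q + s + (X - r - q + s) + (X + r - q - s) + (X - r + q - s) = (4:ℝ) • X := by
      module
    rw [this, inner_smul_left, real_inner_self_eq_norm_sq]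
    simp
    ring
  have ht : ‖X + r + q + s‖ * ‖X‖ + ‖X - r - q + s‖ * ‖X‖ + ‖X + r - q - s‖ * ‖X‖
      + ‖X - r + q - s‖ * ‖X‖ = 4 * (‖X‖ * ‖X‖) := by
    have : ‖X + r + q + s‖ + ‖X - r - q + s‖ + ‖X + r - q - s‖ + ‖X - r + q - s‖ = 4 * ‖X‖ := by
      rw [h]; unfold mean4; ring
    calc _ = (‖X + r + q + s‖ + ‖X - r - q + s‖ + ‖X + r - q - s‖ + ‖X - r + q - s‖) * ‖X‖ := by ring
      _ = _ := by rw [this]; ring
  have j1 : inner ℝ (X + r + q + s) X = ‖X + r + q + s‖ * ‖X‖ := by linarith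
  have j2 : inner ℝ (X - r - q + s) X = ‖X - r - q + s‖ * ‖X‖ := by linarith
  have j3 : inner ℝ (X + r - q - s) X = ‖X + r - q - s‖ * ‖X‖ := by linarith
  have j4 : inner ℝ (X - r + q - s) X = ‖X - r + q - s‖ * ‖X‖ := by linarith
  rw [inner_eq_norm_mul_iff_real] at j1 j2 j3 j4
  set a1 := ‖X + r + q + s‖
  set a2 := ‖X - r - q + s‖
  set a3 := ‖X + r - q - s‖
  set a4 := ‖X - r + q - s‖
  have inv : ‖X‖⁻¹ * ‖X‖ = 1 := inv_mul_cancel₀ hn.ne'
  refine ⟨⟨‖X‖⁻¹ * ((a1 - a2 + a3 - a4) / 4), ?_⟩, ⟨‖X‖⁻¹ * ((a1 - a2 - a3 + a4) / 4), ?_⟩,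
    ⟨‖X‖⁻¹ * ((a1 + a2 - a3 - a4) / 4), ?_⟩⟩
  · have e : ‖X‖ • r = ((a1 - a2 + a3 - a4) / 4) • X := by
      have : ‖X‖ • r = (4⁻¹ : ℝ) • (‖X‖ • (X + r + q + s) - ‖X‖ • (X - r - q + s)
        + ‖X‖ • (X + r - q - s) - ‖X‖ • (X - r + q - s)) := by module
      rw [this, j1, j2, j3, j4]
      module
    rw [← smul_smul, ← e, smul_smul, inv, one_smul]
  · have e : ‖X‖ • q = ((a1 - a2 - a3 + a4) / 4) • X := by
      have : ‖X‖ • q = (4⁻¹ : ℝ) • (‖X‖ • (X + r + q + s) - ‖X‖ • (X - r - q + s)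
        - ‖X‖ • (X + r - q - s) + ‖X‖ • (X - r + q - s)) := by module
      rw [this, j1, j2, j3, j4]
      module
    rw [← smul_smul, ← e, smul_smul, inv, one_smul]
  · have e : ‖X‖ • s = ((a1 + a2 - a3 - a4) / 4) • X := by
      have : ‖X‖ • s = (4⁻¹ : ℝ) • (‖X‖ • (X + r + q + s) + ‖X‖ • (X - r - q + s)
        - ‖X‖ • (X + r - q - s) - ‖X‖ • (X - r + q - s)) := by module
      rw [this, j1, j2, j3, j4]
      module
    rw [← smul_smul, ← e, smul_smul, inv, one_smul]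

lemma par_orth {a X Y : E3} (h1 : ∃ c : ℝ, a = c • X) (h2 : ∃ c : ℝ, a = c • Y)
    (h : inner ℝ X Y = 0) : a = 0 := by
  obtain ⟨c, hc⟩ := h1
  obtain ⟨d, hd⟩ := h2
  have : inner ℝ a a = 0 := by
    nth_rewrite 1 [hc]
    rw [hd, inner_smul_left, inner_smul_right, h]
    simp
  exact inner_self_eq_zero.mp this

/-- **The inequality for eight points.** -/
theorem eight (X Y Z p q r s : E3) :
    V7 X Y Z p q r ≤ ((mean4 X r q s + mean4 Y r p s + mean4 Z p q s) / 3)^3 ∧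
    (V7 X Y Z p q r = ((mean4 X r q s + mean4 Y r p s + mean4 Z p q s) / 3)^3 →
      0 < V7 X Y Z p q r →
      p = 0 ∧ q = 0 ∧ r = 0 ∧ s = 0 ∧ ‖X‖ = ‖Y‖ ∧ ‖Y‖ = ‖Z‖ ∧ X ≠ 0 ∧ inner ℝ X Y = 0 ∧
      inner ℝ Y Z = 0 ∧ inner ℝ Z X = 0) := by
  set x := mean4 X r q s with hx
  set y := mean4 Y r p s with hy
  set z := mean4 Z p q s with hz
  have x0 : 0 ≤ x := mean4_nonneg _ _ _ _
  have y0 : 0 ≤ y := mean4_nonneg _ _ _ _
  have z0 : 0 ≤ z := mean4_nonneg _ _ _ _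
  have hXx : ‖X‖ ≤ x := le_mean4 _ _ _ _
  have hYy : ‖Y‖ ≤ y := le_mean4 _ _ _ _
  have hZz : ‖Z‖ ≤ z := le_mean4 _ _ _ _
  have hrx : ‖r‖ ≤ x := le_mean4' _ _ _ _
  have hry : ‖r‖ ≤ y := le_mean4' _ _ _ _
  have hqx : ‖q‖ ≤ x := le_mean4'' _ _ _ _
  have hqz : ‖q‖ ≤ z := le_mean4'' _ _ _ _
  have hpy : ‖p‖ ≤ y := le_mean4'' _ _ _ _
  have hpz : ‖p‖ ≤ z := le_mean4' _ _ _ _
  have hcube : 0 ≤ ((x + y + z)/3)^3 := by positivity
  have dz : ∀ a b : E3, det3 (0 : E3) a b = 0 := fun a b => by simp [det3]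
  have dz' : ∀ a b : E3, det3 a (0 : E3) b = 0 := fun a b => by simp [det3]
  have dz'' : ∀ a b : E3, det3 a b (0 : E3) = 0 := fun a b => by simp [det3]
  rcases x0.lt_or_eq with x1 | x1
  swap
  · have e1 : X = 0 := by rw [← norm_le_zero_iff]; linarith
    have e2 : r = 0 := by rw [← norm_le_zero_iff]; linarith
    have e3 : q = 0 := by rw [← norm_le_zero_iff]; linarith
    have : V7 X Y Z p q r = 0 := by unfold V7; rw [e1, e2, e3, dz, dz, dz, dz]; norm_num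
    rw [this]
    exact ⟨hcube, fun _ h => absurd h (lt_irrefl _)⟩
  rcases y0.lt_or_eq with y1 | y1
  swap
  · have e1 : Y = 0 := by rw [← norm_le_zero_iff]; linarith
    have e2 : r = 0 := by rw [← norm_le_zero_iff]; linarith
    have e3 : p = 0 := by rw [← norm_le_zero_iff]; linarith
    have : V7 X Y Z p q r = 0 := by
      unfold V7; rw [e1, e2, e3, dz', dz', dz, dz']; norm_num
    rw [this]
    exact ⟨hcube, fun _ h => absurd h (lt_irrefl _)⟩
  rcases z0.lt_or_eq with z1 | z1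
  swap
  · have e1 : Z = 0 := by rw [← norm_le_zero_iff]; linarith
    have e2 : q = 0 := by rw [← norm_le_zero_iff]; linarith
    have e3 : p = 0 := by rw [← norm_le_zero_iff]; linarith
    have : V7 X Y Z p q r = 0 := by
      unfold V7; rw [e1, e2, e3, dz'', dz'', dz'', dz]; norm_num
    rw [this]
    exact ⟨hcube, fun _ h => absurd h (lt_irrefl _)⟩
  have hA1 : det3 X r q / 3 ≤ ‖X‖ * (x^2 - ‖X‖^2) / 6 := key X r q s
  have hA2 : det3 X r q / 3 ≤ ‖X‖ * (y * z) / 3 := by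
    have h1 := det3_le X r q
    have h2 : ‖X‖ * ‖r‖ * ‖q‖ ≤ ‖X‖ * (y * z) := by
      rw [mul_assoc]
      exact mul_le_mul_of_nonneg_left (mul_le_mul hry hqz (norm_nonneg _) y0) (norm_nonneg _)
    linarith
  have hB1 : det3 r Y p / 3 ≤ ‖Y‖ * (y^2 - ‖Y‖^2) / 6 := by
    have h1 : det3 r Y p = det3 Y p r := det3_cyc _ _ _
    rw [h1, hy, ← mean4_swap]
    exact key Y p r s
  have hB2 : det3 r Y p / 3 ≤ ‖Y‖ * (x * z) / 3 := by
    have h1 := det3_le r Y p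
    have h2 : ‖r‖ * ‖Y‖ * ‖p‖ ≤ ‖Y‖ * (x * z) := by
      have : ‖r‖ * ‖Y‖ * ‖p‖ = ‖Y‖ * (‖r‖ * ‖p‖) := by ring
      rw [this]
      exact mul_le_mul_of_nonneg_left (mul_le_mul hrx hpz (norm_nonneg _) x0) (norm_nonneg _)
    linarith
  have hC1 : det3 q p Z / 3 ≤ ‖Z‖ * (z^2 - ‖Z‖^2) / 6 := by
    have h1 : det3 q p Z = det3 Z q p := by rw [det3_cyc, det3_cyc]
    rw [h1, hz, ← mean4_swap]
    exact key Z q p s
  have hC2 : det3 q p Z / 3 ≤ ‖Z‖ * (x * y) / 3 := by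
    have h1 := det3_le q p Z
    have h2 : ‖q‖ * ‖p‖ * ‖Z‖ ≤ ‖Z‖ * (x * y) := by
      have : ‖q‖ * ‖p‖ * ‖Z‖ = ‖Z‖ * (‖q‖ * ‖p‖) := by ring
      rw [this]
      exact mul_le_mul_of_nonneg_left (mul_le_mul hqx hpy (norm_nonneg _) x0) (norm_nonneg _)
    linarith
  have hs := scalar x1 y1 z1 (norm_nonneg X) hXx (norm_nonneg Y) hYy (norm_nonneg Z) hZz
    hA1 hA2 hB1 hB2 hC1 hC2
  have hV : V7 X Y Z p q r ≤ ‖X‖ * ‖Y‖ * ‖Z‖ + det3 X r q / 3 + det3 r Y p / 3 + det3 q p Z / 3 := by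
    unfold V7
    have := det3_le X Y Z
    linarith
  refine ⟨hV.trans hs.1, fun heq hpos => ?_⟩
  have hs2 := hs.2 (le_antisymm hs.1 (by rw [← heq]; exact hV))
  obtain ⟨hxy, hyz, hX, hY, hZ⟩ := hs2
  have hdet : det3 X Y Z = ‖X‖ * ‖Y‖ * ‖Z‖ := by
    have h1 : ‖X‖ * ‖Y‖ * ‖Z‖ + det3 X r q / 3 + det3 r Y p / 3 + det3 q p Z / 3 ≤ V7 X Y Z p q r := by
      rw [heq]; exact hs.1
    have h2 := det3_le X Y Z
    unfold V7 at h1
    linarith
  have Xne : X ≠ 0 := by rw [← norm_pos_iff, hX]; exact x1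
  have Yne : Y ≠ 0 := by rw [← norm_pos_iff, hY]; exact y1
  have Zne : Z ≠ 0 := by rw [← norm_pos_iff, hZ]; exact z1
  have oYZ : inner ℝ Y Z = 0 := det3_eq hdet Xne
  have oZX : inner ℝ Z X = 0 := by
    refine det3_eq (x := Y) ?_ Yne
    rw [← det3_cyc, hdet]; ring
  have oXY : inner ℝ X Y = 0 := by
    refine det3_eq (x := Z) ?_ Zne
    rw [← det3_cyc, ← det3_cyc, hdet]; ring
  obtain ⟨rX, qX, sX⟩ := mean4_eq Xne (hX.trans hx)
  obtain ⟨rY, pY, sY⟩ := mean4_eq Yne (hY.trans hy)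
  obtain ⟨pZ, qZ, sZ⟩ := mean4_eq Zne (hZ.trans hz)
  refine ⟨par_orth pY pZ oYZ, par_orth qZ qX oZX, par_orth rX rY oXY, par_orth sX sY oXY, ?_, ?_,
    Xne, oXY, oYZ, oZX⟩
  · rw [hX, hY, hxy]
  · rw [hY, hZ, hyz]

/-- the same with the absolute value -/
theorem eight_abs (X Y Z p q r s : E3) :
    |V7 X Y Z p q r| ≤ ((mean4 X r q s + mean4 Y r p s + mean4 Z p q s) / 3)^3 ∧
    (|V7 X Y Z p q r| = ((mean4 X r q s + mean4 Y r p s + mean4 Z p q s) / 3)^3 →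
      V7 X Y Z p q r ≠ 0 →
      p = 0 ∧ q = 0 ∧ r = 0 ∧ s = 0 ∧ ‖X‖ = ‖Y‖ ∧ ‖Y‖ = ‖Z‖ ∧ X ≠ 0 ∧ inner ℝ X Y = 0 ∧
      inner ℝ Y Z = 0 ∧ inner ℝ Z X = 0) := by
  have h1 := eight X Y Z p q r s
  have h2 := eight (-X) Y Z p (-q) (-r) (-s)
  have e0 : V7 (-X) Y Z p (-q) (-r) = - V7 X Y Z p q r := by
    unfold V7 det3
    simp only [PiLp.neg_apply]
    ring
  have n : ∀ a b : E3, a = - b → ‖a‖ = ‖b‖ := fun a b h => by rw [h, norm_neg]
  have e1 : mean4 (-X) (-r) (-q) (-s) = mean4 X r q s := by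
    unfold mean4
    rw [n (-X + -r + -q + -s) (X + r + q + s) (by abel), n (-X - -r - -q + -s) (X - r - q + s) (by abel),
      n (-X + -r - -q - -s) (X + r - q - s) (by abel), n (-X - -r + -q - -s) (X - r + q - s) (by abel)]
  have e2 : mean4 Y (-r) p (-s) = mean4 Y r p s := by
    unfold mean4
    have a1 : Y + -r + p + -s = Y - r + p - s := by abel
    have a2 : Y - -r - p + -s = Y + r - p - s := by abel
    have a3 : Y + -r - p - -s = Y - r - p + s := by abel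
    have a4 : Y - -r + p - -s = Y + r + p + s := by abel
    rw [a1, a2, a3, a4]; ring
  have e3 : mean4 Z p (-q) (-s) = mean4 Z p q s := by
    unfold mean4
    have a1 : Z + p + -q + -s = Z + p - q - s := by abel
    have a2 : Z - p - -q + -s = Z - p + q - s := by abel
    have a3 : Z + p - -q - -s = Z + p + q + s := by abel
    have a4 : Z - p + -q - -s = Z - p - q + s := by abel
    rw [a1, a2, a3, a4]; ring
  rw [e0, e1, e2, e3] at h2
  refine ⟨abs_le.mpr ⟨by linarith [h2.1], h1.1⟩, fun heq hne => ?_⟩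
  rcases lt_or_gt_of_ne hne with hneg | hpos
  · rw [abs_of_neg hneg] at heq
    obtain ⟨g1, g2, g3, g4, g5, g6, g7, g8, g9, g10⟩ := h2.2 heq (by linarith)
    rw [norm_neg] at g5
    rw [inner_neg_left] at g8
    rw [inner_neg_right] at g10
    exact ⟨g1, neg_eq_zero.mp g2, neg_eq_zero.mp g3, neg_eq_zero.mp g4, g5, g6, neg_ne_zero.mp g7,
      neg_eq_zero.mp g8, g9, neg_eq_zero.mp g10⟩
  · rw [abs_of_pos hpos] at heq
    exact h1.2 heq hpos

end Pool.Agent.Work.MP_3892ce_cube_h9
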