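import Pool.Agent.Work.MP_3892ce_cube_h9.Vol
import Pool.Agent.Work.MP_3892ce_cube_h9.Box

/-! # The equality case -/

set_option autoImplicit false

namespace Pool.Agent.Work.MP_3892ce_cube_h9

open Pool.Agent.Work.MP_3892ce_gt MeasureTheory Set

variable {P : Set E3} {v : (Fin 3 → Bool) → E3} {n : Fin 3 → Bool → E3} {c : Fin 3 → Bool → ℝ}

/-- if the parameters `p, q, r, s` vanish, then the eight points are the vertices of a box -/
lemma vertices_of (v : (Fin 3 → Bool) → E3) (hp : app8 v pp = 0) (hq : app8 v pq = 0)
    (hr : app8 v pr = 0) (hs : app8 v ps = 0) : ∀ ε, v ε = v ![false, false, false]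
      + ∑ i, bb (ε i) • (![app8 v pX, app8 v pY, app8 v pZ] i) := by
  have e1 : v ![true, false, false] = v ![false, false, false] + app8 v pX := by
    have : v ![true, false, false] = v ![false, false, false] + (app8 v pX - app8 v pr - app8 v pq
        + app8 v ps) := by
      unfold app8 pX pr pq ps; module
    rw [this, hr, hq, hs]; simp
  have e2 : v ![false, true, false] = v ![false, false, false] + app8 v pY := by
    have : v ![false, true, false] = v ![false, false, false] + (app8 v pY - app8 v pr - app8 v pp
        + app8 v ps) := by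
      unfold app8 pY pr pp ps; module
    rw [this, hr, hp, hs]; simp
  have e3 : v ![false, false, true] = v ![false, false, false] + app8 v pZ := by
    have : v ![false, false, true] = v ![false, false, false] + (app8 v pZ - app8 v pp - app8 v pq
        + app8 v ps) := by
      unfold app8 pZ pp pq ps; module
    rw [this, hp, hq, hs]; simp
  have e12 : v ![true, true, false] = v ![false, true, false] + app8 v pX := by
    have : v ![true, true, false] = v ![false, true, false] + (app8 v pX + app8 v pr - app8 v pq
        - app8 v ps) := by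
      unfold app8 pX pr pq ps; module
    rw [this, hr, hq, hs]; simp
  have e13 : v ![true, false, true] = v ![false, false, true] + app8 v pX := by
    have : v ![true, false, true] = v ![false, false, true] + (app8 v pX - app8 v pr + app8 v pq
        - app8 v ps) := by
      unfold app8 pX pr pq ps; module
    rw [this, hr, hq, hs]; simp
  have e23 : v ![false, true, true] = v ![false, false, true] + app8 v pY := by
    have : v ![false, true, true] = v ![false, false, true] + (app8 v pY - app8 v pr + app8 v pp
        - app8 v ps) := by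
      unfold app8 pY pr pp ps; module
    rw [this, hr, hp, hs]; simp
  have e123 : v ![true, true, true] = v ![false, true, true] + app8 v pX := by
    have : v ![true, true, true] = v ![false, true, true] + (app8 v pX + app8 v pr + app8 v pq
        + app8 v ps) := by
      unfold app8 pX pr pq ps; module
    rw [this, hr, hq, hs]; simp
  intro ε
  have hε : ε = ![false, false, false] ∨ ε = ![true, false, false] ∨ ε = ![false, true, false] ∨
    ε = ![false, false, true] ∨ ε = ![true, true, false] ∨ ε = ![true, false, true] ∨
    ε = ![false, true, true] ∨ ε = ![true, true, true] := by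
    revert ε; decide
  rcases hε with rfl | rfl | rfl | rfl | rfl | rfl | rfl | rfl
  · simp [Fin.sum_univ_three, bb]
  · simp [Fin.sum_univ_three, bb, e1]
  · simp [Fin.sum_univ_three, bb, e2]
  · simp [Fin.sum_univ_three, bb, e3]
  · rw [e12, e2]
    simp [Fin.sum_univ_three, bb]
    abel
  · rw [e13, e3]
    simp [Fin.sum_univ_three, bb]
    abel
  · rw [e23, e3]
    simp [Fin.sum_univ_three, bb]
    abel
  · rw [e123, e23, e3]
    simp [Fin.sum_univ_three, bb]
    abel

lemma hull_eq_box {o : E3} {u : Fin 3 → E3} (hv : ∀ ε, v ε = o + ∑ i, bb (ε i) • u i) :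
    convexHull ℝ (range v) = Box o u := by
  apply Subset.antisymm
  · apply convexHull_min _ (convex_box o u)
    rintro _ ⟨ε, rfl⟩
    exact ⟨fun i => bb (ε i), fun i => bb_mem _, hv ε⟩
  · rintro _ ⟨t, ht, rfl⟩
    have hC := convex_convexHull ℝ (range v)
    have m0 : ∀ b b' : Bool, ∀ t2 : ℝ, 0 ≤ t2 → t2 ≤ 1 →
        o + bb b • u 0 + bb b' • u 1 + t2 • u 2 ∈ convexHull ℝ (range v) := by
      intro b b' t2 h0 h1
      have k0 : v ![b, b', false] ∈ convexHull ℝ (range v) := subset_convexHull _ _ ⟨_, rfl⟩
      have k1 : v ![b, b', true] ∈ convexHull ℝ (range v) := subset_convexHull _ _ ⟨_, rfl⟩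
      have e0 : v ![b, b', false] = o + bb b • u 0 + bb b' • u 1 := by
        rw [hv, Fin.sum_univ_three]
        show o + (bb b • u 0 + bb b' • u 1 + (0 : ℝ) • u 2) = _
        module
      have e1 : v ![b, b', true] = o + bb b • u 0 + bb b' • u 1 + u 2 := by
        rw [hv, Fin.sum_univ_three]
        show o + (bb b • u 0 + bb b' • u 1 + (1 : ℝ) • u 2) = _
        module
      rw [e0] at k0
      rw [e1] at k1
      exact hC.add_smul_mem k0 k1 ⟨h0, h1⟩
    have m1 : ∀ b : Bool, o + bb b • u 0 + t 1 • u 1 + t 2 • u 2 ∈ convexHull ℝ (range v) := by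
      intro b
      have k0 := m0 b false (t 2) (ht 2).1 (ht 2).2
      have k1 := m0 b true (t 2) (ht 2).1 (ht 2).2
      have e0 : o + bb b • u 0 + bb false • u 1 + t 2 • u 2 = o + bb b • u 0 + t 2 • u 2 := by
        simp [bb]
      have e1 : o + bb b • u 0 + bb true • u 1 + t 2 • u 2 = o + bb b • u 0 + t 2 • u 2 + u 1 := by
        simp only [bb, if_true]; module
      rw [e0] at k0
      rw [e1] at k1
      have := hC.add_smul_mem k0 k1 (ht 1)
      have e : o + bb b • u 0 + t 2 • u 2 + t 1 • u 1 = o + bb b • u 0 + t 1 • u 1 + t 2 • u 2 := by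
        abel
      rwa [e] at this
    have k0 := m1 false
    have k1 := m1 true
    have e0 : o + bb false • u 0 + t 1 • u 1 + t 2 • u 2 = o + t 1 • u 1 + t 2 • u 2 := by
      simp [bb]
    have e1 : o + bb true • u 0 + t 1 • u 1 + t 2 • u 2 = o + t 1 • u 1 + t 2 • u 2 + u 0 := by
      simp only [bb, if_true]; module
    rw [e0] at k0
    rw [e1] at k1
    have := hC.add_smul_mem k0 k1 (ht 0)
    rw [Fin.sum_univ_three]
    have e : o + t 1 • u 1 + t 2 • u 2 + t 0 • u 0 = o + (t 0 • u 0 + t 1 • u 1 + t 2 • u 2) := by
      abel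
    rwa [e] at this

theorem isCube_of (h : CubeData P v n c) (he : 1728 * volume P = zeta1 P ^ 3) : IsCube P := by
  have h1 := h.main.2 he
  have h2 := (eight_abs (app8 v pX) (app8 v pY) (app8 v pZ) (app8 v pp) (app8 v pq) (app8 v pr)
    (app8 v ps)).2 h1 h.volume_le_and_ne.2
  obtain ⟨hp, hq, hr, hs, n1, n2, hX, o1, o2, o3⟩ := h2
  refine ⟨v ![false, false, false], ![app8 v pX, app8 v pY, app8 v pZ], ‖app8 v pX‖,
    norm_pos_iff.mpr hX, ?_, ?_, ?_⟩
  · intro i
    fin_cases i
    · rfl
    · exact n1.symm
    · exact (n1.trans n2).symm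
  · intro i j hij
    fin_cases i <;> fin_cases j
    · exact absurd rfl hij
    · exact o1
    · rw [real_inner_comm]; exact o3
    · rw [real_inner_comm]; exact o1
    · exact absurd rfl hij
    · exact o2
    · exact o3
    · rw [real_inner_comm]; exact o2
    · exact absurd rfl hij
  · rw [h.1]
    exact hull_eq_box (vertices_of v hp hq hr hs)

end Pool.Agent.Work.MP_3892ce_cube_h9
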