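import Pool.Agent.Work.MP_3892ce_cube_h9.Eight

/-! # The signed volume as a sum of six determinants -/

set_option autoImplicit false

namespace Pool.Agent.Work.MP_3892ce_cube_h9

open Pool.Agent.Work.MP_3892ce_gt

/-- The eight vertices are `o, a, b, c` (`= v000, v100, v010, v001`), `ab, ac, bc`, `abc`. -/
noncomputable def pX (o a b c ab ac bc abc : E3) : E3 :=
  (4⁻¹ : ℝ) • (a - o + ab - b + ac - c + abc - bc)
noncomputable def pY (o a b c ab ac bc abc : E3) : E3 :=
  (4⁻¹ : ℝ) • (b - o + ab - a + bc - c + abc - ac)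
noncomputable def pZ (o a b c ab ac bc abc : E3) : E3 :=
  (4⁻¹ : ℝ) • (c - o + ac - a + bc - b + abc - ab)
noncomputable def pr (o a b c ab ac bc abc : E3) : E3 :=
  (4⁻¹ : ℝ) • (o + c + ab + abc - a - b - ac - bc)
noncomputable def pq (o a b c ab ac bc abc : E3) : E3 :=
  (4⁻¹ : ℝ) • (o + b + ac + abc - a - c - ab - bc)
noncomputable def pp (o a b c ab ac bc abc : E3) : E3 :=
  (4⁻¹ : ℝ) • (o + a + bc + abc - b - c - ab - ac)
noncomputable def ps (o a b c ab ac bc abc : E3) : E3 :=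
  (4⁻¹ : ℝ) • (a + b + c + abc - o - ab - ac - bc)

lemma det3_smul3 (t : ℝ) (x y z : E3) : det3 (t • x) (t • y) (t • z) = t^3 * det3 x y z := by
  unfold det3
  simp only [PiLp.smul_apply, smul_eq_mul]
  ring

lemma V7_ident (a b c ab ac bc abc : E3) :
    12 * V7 (pX 0 a b c ab ac bc abc) (pY 0 a b c ab ac bc abc) (pZ 0 a b c ab ac bc abc)
      (pp 0 a b c ab ac bc abc) (pq 0 a b c ab ac bc abc) (pr 0 a b c ab ac bc abc)
    = 2 * (det3 a ab abc + det3 a abc ac + det3 b bc abc + det3 b abc ab + det3 c ac abc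
        + det3 c abc bc)
      + det3 (ab - a) (abc - a) (ac - a) + det3 (bc - b) (abc - b) (ab - b)
      + det3 (ac - c) (abc - c) (bc - c) - det3 b bc c - det3 c ac a - det3 a ab b := by
  unfold V7 pX pY pZ pp pq pr
  rw [det3_smul3, det3_smul3, det3_smul3, det3_smul3]
  unfold det3
  simp only [PiLp.add_apply, PiLp.sub_apply, PiLp.zero_apply]
  ring

end Pool.Agent.Work.MP_3892ce_cube_h9
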