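import Mathlib

/-!
The scalar inequality behind the theorem on combinatorial cubes (helper9 after helper15).
-/

namespace Pool.Agent.Work.MP_3892ce_cube_h9

theorem q1 {u : ℝ} (h0 : 0 ≤ u) (h1 : u ≤ 1) :
    (5/6) * u * (1 - u^2) * (2 - u) + 1 < 1.11 * (2 - u) := by
  have h2 : 0 ≤ 1 - u := by linarith
  nlinarith [mul_nonneg h0 h2, sq_nonneg (u - 4/5), mul_nonneg h0 (sq_nonneg (u - 4/5)),
    mul_nonneg h2 (sq_nonneg (u - 4/5)), mul_nonneg (mul_nonneg h0 h2) (sq_nonneg (u - 4/5)),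
    sq_nonneg (u^2 - 16/25), sq_nonneg (u*(u-4/5))]

theorem q2 {u : ℝ} (h0 : 0 ≤ u) (h1 : u ≤ 1) :
    (7/6) * u * (1 - u^2) * (2 - u) + 1 < 1.25 * (2 - u) := by
  have h2 : 0 ≤ 1 - u := by linarith
  nlinarith [mul_nonneg h0 h2, sq_nonneg (u - 3/4), mul_nonneg h0 (sq_nonneg (u - 3/4)),
    mul_nonneg h2 (sq_nonneg (u - 3/4)), mul_nonneg (mul_nonneg h0 h2) (sq_nonneg (u - 3/4)),
    sq_nonneg (u^2 - 9/16), sq_nonneg (u*(u-3/4))]

theorem q3 {u : ℝ} (h0 : 0 ≤ u) (h1 : u ≤ 1) :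
    (u/3) * (2 - u) + 1 ≤ 4/3 * (2 - u) := by
  nlinarith [mul_nonneg h0 (by linarith : (0:ℝ) ≤ 1 - u)]

theorem q4 {v : ℝ} (h0 : 0 ≤ v) (h1 : v ≤ 1) : v + (2/3) * v * (1 - v^2) ≤ 1.03 := by
  nlinarith [mul_nonneg h0 (sq_nonneg (v - 0.91)), sq_nonneg (v - 0.91)]

theorem q5 {u : ℝ} (h0 : 0 ≤ u) (h1 : u ≤ 1) : (8/9) * u * (1 - u^2) ≤ 0.36 := by
  nlinarith [mul_nonneg h0 (sq_nonneg (u - 0.577)), sq_nonneg (u - 0.577)]

theorem case1 {u v w : ℝ} (hu0 : 0 ≤ u) (hu1 : u ≤ 1) (hv0 : 0 ≤ v) (hv1 : v ≤ 1)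
    (hw0 : 0 ≤ w) (hw1 : w ≤ 1) :
    u*v*w + u*(1-u) + v*(1-v) + w*(1-w) ≤ 1 := by
  have a : 0 ≤ (1-u)*(1-v)*(1-w) := by
    apply mul_nonneg (mul_nonneg _ _) _ <;> linarith
  nlinarith [sq_nonneg (u-v), sq_nonneg (v-w), sq_nonneg (w-u)]

theorem case1_eq {u v w : ℝ} (hu0 : 0 ≤ u) (hu1 : u ≤ 1) (hv0 : 0 ≤ v) (hv1 : v ≤ 1)
    (hw0 : 0 ≤ w) (hw1 : w ≤ 1) (h : u*v*w + u*(1-u) + v*(1-v) + w*(1-w) = 1) :
    u = 1 ∧ v = 1 ∧ w = 1 := by
  have a : 0 ≤ (1-u)*(1-v)*(1-w) := by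
    apply mul_nonneg (mul_nonneg _ _) _ <;> linarith
  have s1 : (u-v)^2 = 0 := by nlinarith [sq_nonneg (u-v), sq_nonneg (v-w), sq_nonneg (w-u)]
  have s2 : (v-w)^2 = 0 := by nlinarith [sq_nonneg (u-v), sq_nonneg (v-w), sq_nonneg (w-u)]
  have s3 : (1-u)*(1-v)*(1-w) = 0 := by
    nlinarith [sq_nonneg (u-v), sq_nonneg (v-w), sq_nonneg (w-u)]
  have e1 : u = v := by nlinarith [pow_eq_zero_iff (two_ne_zero) |>.mp s1]
  have e2 : v = w := by nlinarith [pow_eq_zero_iff (two_ne_zero) |>.mp s2]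
  subst e1; subst e2
  have : (1-u)^3 = 0 := by nlinarith
  have := pow_eq_zero_iff (three_ne_zero) |>.mp this
  exact ⟨by linarith, by linarith, by linarith⟩

theorem case2 {u v w : ℝ} (hu0 : 0 ≤ u) (hu1 : u ≤ 1) :
    (2-u) * (u*v*w + v*(1-v) + w*(1-w)) ≤ 1 := by
  nlinarith [sq_nonneg ((2-u)*(v+w)-2), mul_nonneg hu0 (sq_nonneg (v-w)), sq_nonneg (v-w),
    mul_nonneg (by linarith : (0:ℝ) ≤ 1-u) (sq_nonneg (v-w)),
    mul_nonneg (mul_nonneg hu0 (by linarith : (0:ℝ) ≤ 1-u)) (sq_nonneg (v-w)),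
    mul_nonneg (mul_nonneg hu0 hu0) (sq_nonneg (v-w))]

/-- a term of a small side -/
theorem small_term {x P u A : ℝ} (hP : 0 ≤ P) (hu0 : 0 ≤ u) (hu1 : u ≤ 1)
    (hx : x^3 ≤ 3 * P) (hA : A ≤ x^3 * (u * (1 - u^2)) / 6) : A ≤ P * (u * (1-u)) := by
  have h1 : 0 ≤ u * (1-u) := mul_nonneg hu0 (by linarith)
  have h2 : 0 ≤ u * (1 - u^2) := mul_nonneg hu0 (by nlinarith)
  have h3 : x^3 * (u * (1 - u^2)) ≤ 3 * P * (u * (1 - u^2)) := mul_le_mul_of_nonneg_right hx h2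
  have h4 : u * (1 - u^2) ≤ 2 * (u * (1-u)) := by nlinarith [mul_nonneg h1 (by linarith : (0:ℝ) ≤ 1-u)]
  nlinarith [mul_le_mul_of_nonneg_left h4 hP]

theorem mid_term {x P u A κ : ℝ} (hu0 : 0 ≤ u) (hu1 : u ≤ 1)
    (hx : x^3 ≤ κ * P) (hA : A ≤ x^3 * (u * (1 - u^2)) / 6) : A ≤ P * (κ/6 * u * (1-u^2)) := by
  have h2 : 0 ≤ u * (1 - u^2) := mul_nonneg hu0 (by nlinarith)
  have h3 : x^3 * (u * (1 - u^2)) ≤ κ * P * (u * (1 - u^2)) := mul_le_mul_of_nonneg_right hx h2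
  nlinarith

theorem cube_lb {x g k c : ℝ} (hg : 0 < g) (hk0 : 0 ≤ k) (hx : k*g ≤ x)
    (h1 : c*k ≤ (k+2)^3) (h2 : c ≤ 3*(k+2)^2) : c*(x*g^2) ≤ (x+2*g)^3 := by
  obtain ⟨t, ht, rfl⟩ : ∃ t, 0 ≤ t ∧ x = k*g + t := ⟨x - k*g, by linarith, by ring⟩
  have e : (k*g + t + 2*g)^3 = (k+2)^3*g^3 + 3*(k+2)^2*(g^2*t) + 3*(k+2)*(g*t^2) + t^3 := by ring
  have a1 : 0 ≤ g^3 := by positivity
  have a2 : 0 ≤ g^2*t := by positivity
  have a3 : 0 ≤ 3*(k+2)*(g*t^2) := by positivity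
  have a4 : 0 ≤ t^3 := by positivity
  rw [e]
  nlinarith [mul_le_mul_of_nonneg_right h1 a1, mul_le_mul_of_nonneg_right h2 a2]

theorem le_of_mul_sq {x g k : ℝ} (hx : 0 < x) (hk : 0 ≤ k) (hg : 0 < g)
    (h : k^2 * g^2 ≤ x^2) : k * g ≤ x := by
  by_contra hc
  push Not at hc
  have h0 : 0 ≤ k * g := by positivity
  nlinarith

/-- one big side -/
theorem one_big {x y z u v w A B C : ℝ} (hx : 0 < x) (hy : 0 < y) (hz : 0 < z)
    (hu0 : 0 ≤ u) (hu1 : u ≤ 1) (hv0 : 0 ≤ v) (hv1 : v ≤ 1) (hw0 : 0 ≤ w) (hw1 : w ≤ 1)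
    (hA1 : A ≤ x^3 * (u * (1 - u^2)) / 6) (hA2 : A ≤ x*y*z * u / 3)
    (hB1 : B ≤ y^3 * (v * (1 - v^2)) / 6) (hC1 : C ≤ z^3 * (w * (1 - w^2)) / 6)
    (bx : 3 * (y*z) < x^2) (sy : y^2 ≤ 3 * (x*z)) (sz : z^2 ≤ 3 * (x*y)) :
    x*y*z*(u*v*w) + A + B + C < ((x+y+z)/3)^3 := by
  set P := x*y*z with hPdef
  have hP : 0 < P := by positivity
  obtain ⟨g, hg0, hg⟩ : ∃ g : ℝ, 0 < g ∧ g^2 = y*z :=
    ⟨Real.sqrt (y*z), Real.sqrt_pos.mpr (by positivity), Real.sq_sqrt (by positivity)⟩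
  have hPg : P = x * g^2 := by rw [hg, hPdef]; ring
  have hyz : 2*g ≤ y + z := by
    by_contra hc
    push Not at hc
    nlinarith [sq_nonneg (y-z)]
  have hlow : (x+2*g)^3 ≤ (x+y+z)^3 := by
    apply pow_le_pow_left₀ (by positivity); linarith
  have hB : B ≤ P * (v * (1-v)) :=
    small_term hP.le hv0 hv1 (by rw [hPdef]; nlinarith [mul_le_mul_of_nonneg_left sy hy.le]) hB1
  have hC : C ≤ P * (w * (1-w)) :=
    small_term hP.le hw0 hw1 (by rw [hPdef]; nlinarith [mul_le_mul_of_nonneg_left sz hz.le]) hC1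
  have h2u : 0 < 2 - u := by linarith
  have hc2 := case2 (u := u) (v := v) (w := w) hu0 hu1
  -- it suffices to bound P + (2-u) A
  have main : P + (2-u)*A < (2-u) * ((x+y+z)/3)^3 := by
    rcases le_or_gt (x^2) (5*g^2) with h5 | h5
    · have hA : A ≤ P * (5/6 * u * (1-u^2)) :=
        mid_term hu0 hu1 (by rw [hPg]; nlinarith [mul_le_mul_of_nonneg_left h5 hx.le]) hA1
      have hk : (1.732 : ℝ) * g ≤ x := le_of_mul_sq hx (by norm_num) hg0 (by nlinarith [sq_nonneg g])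
      have hb := cube_lb (c := 29.97) hg0 (by norm_num) hk (by norm_num) (by norm_num)
      have hq := q1 hu0 hu1
      have h1 : (2-u)*A ≤ (2-u)*(P * (5/6 * u * (1-u^2))) := mul_le_mul_of_nonneg_left hA h2u.le
      have h3 : P * ((5/6) * u * (1 - u^2) * (2 - u) + 1) < P * (1.11 * (2 - u)) :=
        mul_lt_mul_of_pos_left hq hP
      have h4 : 1.11 * P ≤ ((x+y+z)/3)^3 := by
        have : ((x+y+z)/3)^3 = (x+y+z)^3/27 := by ring
        rw [this, hPg]; linarith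
      have h5' : (2-u) * (1.11*P) ≤ (2-u) * ((x+y+z)/3)^3 := mul_le_mul_of_nonneg_left h4 h2u.le
      nlinarith
    rcases le_or_gt (x^2) (7*g^2) with h7 | h7
    · have hA : A ≤ P * (7/6 * u * (1-u^2)) :=
        mid_term hu0 hu1 (by rw [hPg]; nlinarith [mul_le_mul_of_nonneg_left h7 hx.le]) hA1
      have hk : (2.236 : ℝ) * g ≤ x := le_of_mul_sq hx (by norm_num) hg0 (by nlinarith [sq_nonneg g])
      have hb := cube_lb (c := 33.75) hg0 (by norm_num) hk (by norm_num) (by norm_num)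
      have hq := q2 hu0 hu1
      have h1 : (2-u)*A ≤ (2-u)*(P * (7/6 * u * (1-u^2))) := mul_le_mul_of_nonneg_left hA h2u.le
      have h3 : P * ((7/6) * u * (1 - u^2) * (2 - u) + 1) < P * (1.25 * (2 - u)) :=
        mul_lt_mul_of_pos_left hq hP
      have h4 : 1.25 * P ≤ ((x+y+z)/3)^3 := by
        have : ((x+y+z)/3)^3 = (x+y+z)^3/27 := by ring
        rw [this, hPg]; linarith
      have h5' : (2-u) * (1.25*P) ≤ (2-u) * ((x+y+z)/3)^3 := mul_le_mul_of_nonneg_left h4 h2u.le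
      nlinarith
    · have hk : (2.645 : ℝ) * g ≤ x := le_of_mul_sq hx (by norm_num) hg0 (by nlinarith [sq_nonneg g])
      have hb := cube_lb (c := 36.5) hg0 (by norm_num) hk (by norm_num) (by norm_num)
      have hq := q3 hu0 hu1
      have h1 : (2-u)*A ≤ (2-u)*(P * u / 3) := mul_le_mul_of_nonneg_left hA2 h2u.le
      have h3 : P * ((u/3) * (2 - u) + 1) ≤ P * (4/3 * (2 - u)) :=
        mul_le_mul_of_nonneg_left hq hP.le
      have h4 : (4/3) * P < ((x+y+z)/3)^3 := by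
        have : ((x+y+z)/3)^3 = (x+y+z)^3/27 := by ring
        rw [this, hPg]
        have : 0 < x * g^2 := by positivity
        linarith
      have h5' : (2-u) * (4/3*P) < (2-u) * ((x+y+z)/3)^3 := mul_lt_mul_of_pos_left h4 h2u
      nlinarith
  have hf : (2-u) * (P*(u*v*w) + A + B + C) ≤ P + (2-u)*A := by
    have h6 : (2-u) * B ≤ (2-u) * (P * (v * (1-v))) := mul_le_mul_of_nonneg_left hB h2u.le
    have h7 : (2-u) * C ≤ (2-u) * (P * (w * (1-w))) := mul_le_mul_of_nonneg_left hC h2u.le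
    have h8 : P * ((2-u) * (u*v*w + v*(1-v) + w*(1-w))) ≤ P * 1 := mul_le_mul_of_nonneg_left hc2 hP.le
    nlinarith
  exact lt_of_mul_lt_mul_left (lt_of_le_of_lt hf main) h2u.le

theorem cube_lb2 {G z k c : ℝ} (hz : 0 < z) (hk0 : 0 ≤ k) (hG : k*z ≤ G)
    (h1 : c*k^2 ≤ (2*k+1)^3) (h2 : 2*c*k ≤ 6*(2*k+1)^2) (h3 : c ≤ 12*(2*k+1)) :
    c*(G^2*z) ≤ (2*G+z)^3 := by
  obtain ⟨t, ht, rfl⟩ : ∃ t, 0 ≤ t ∧ G = k*z + t := ⟨G - k*z, by linarith, by ring⟩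
  have e : (2*(k*z + t) + z)^3 = (2*k+1)^3*z^3 + 6*(2*k+1)^2*(z^2*t) + 12*(2*k+1)*(z*t^2) + 8*t^3 := by
    ring
  have a1 : 0 ≤ z^3 := by positivity
  have a2 : 0 ≤ z^2*t := by positivity
  have a3 : 0 ≤ z*t^2 := by positivity
  have a4 : 0 ≤ t^3 := by positivity
  rw [e]
  nlinarith [mul_le_mul_of_nonneg_right h1 a1, mul_le_mul_of_nonneg_right h2 a2,
    mul_le_mul_of_nonneg_right h3 a3]

/-- two big sides, the second not larger than the first -/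
theorem two_big {x y z u v w A B C : ℝ} (hx : 0 < x) (hy : 0 < y) (hz : 0 < z)
    (hu0 : 0 ≤ u) (hu1 : u ≤ 1) (hv0 : 0 ≤ v) (hv1 : v ≤ 1) (hw0 : 0 ≤ w) (hw1 : w ≤ 1)
    (hA1 : A ≤ x^3 * (u * (1 - u^2)) / 6) (hA2 : A ≤ x*y*z * u / 3)
    (hB1 : B ≤ y^3 * (v * (1 - v^2)) / 6) (hB2 : B ≤ x*y*z * v / 3)
    (hC1 : C ≤ z^3 * (w * (1 - w^2)) / 6)
    (bx : 3 * (y*z) < x^2) (ty : 3 * (x*z) < y^2) (hyx : y ≤ x) :
    x*y*z*(u*v*w) + A + B + C < ((x+y+z)/3)^3 := by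
  set P := x*y*z with hPdef
  have hP : 0 < P := by positivity
  obtain ⟨G, hG0, hG⟩ : ∃ G : ℝ, 0 < G ∧ G^2 = x*y :=
    ⟨Real.sqrt (x*y), Real.sqrt_pos.mpr (by positivity), Real.sq_sqrt (by positivity)⟩
  have hPG : P = G^2 * z := by rw [hG, hPdef]
  have hxy : 2*G ≤ x + y := by
    by_contra hc
    push Not at hc
    nlinarith [sq_nonneg (x-y)]
  have hlow : (2*G+z)^3 ≤ (x+y+z)^3 := by
    apply pow_le_pow_left₀ (by positivity); linarith
  -- x*y > 9 z^2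
  have h9 : 9 * z^2 < x*y := by
    have h : (3 * (y*z)) * (3 * (x*z)) < x^2 * y^2 :=
      mul_lt_mul'' bx ty (by positivity) (by positivity)
    have h' : (9*z^2) * (x*y) < (x*y) * (x*y) := by nlinarith
    exact lt_of_mul_lt_mul_right h' (by positivity)
  have hk3 : (3:ℝ) * z ≤ G := le_of_mul_sq hG0 (by norm_num) hz (by nlinarith)
  have hC : C ≤ P * (1/9/6 * w * (1-w^2)) :=
    mid_term hw0 hw1 (by rw [hPdef]; nlinarith [mul_le_mul_of_nonneg_left h9.le hz.le]) hC1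
  have hC' : P*(u*v*w) + C ≤ P * (u*v + 1/108) := by
    have s1 : w * (1-w^2) ≤ 1/2 := by nlinarith [sq_nonneg (w-1), sq_nonneg (w - 1/2), mul_nonneg hw0 (sq_nonneg (w-1/2))]
    have s2 : u*v*w ≤ u*v := by
      have : 0 ≤ u*v := by positivity
      nlinarith
    nlinarith [mul_le_mul_of_nonneg_left s1 hP.le, mul_le_mul_of_nonneg_left s2 hP.le]
  rcases le_or_gt (16*z^2) (x*y) with h16 | h16
  · have hk4 : (4:ℝ) * z ≤ G := le_of_mul_sq hG0 (by norm_num) hz (by nlinarith)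
    have hb := cube_lb2 (c := 45.5) hz (by norm_num) hk4 (by norm_num) (by norm_num) (by norm_num)
    have s3 : P * (u*v) ≤ P * 1 := by
      apply mul_le_mul_of_nonneg_left _ hP.le; nlinarith
    have s4 : P * u ≤ P * 1 := mul_le_mul_of_nonneg_left hu1 hP.le
    have s5 : P * v ≤ P * 1 := mul_le_mul_of_nonneg_left hv1 hP.le
    have : ((x+y+z)/3)^3 = (x+y+z)^3/27 := by ring
    rw [this]
    rw [← hPG] at hb
    nlinarith
  · -- κ_y < 4
    have hx3 : y^3 ≤ x^3 := pow_le_pow_left₀ hy.le hyx 3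
    have h4 : y^2 < 4*(x*z) := by
      by_contra hc
      push Not at hc
      have h1 : (4*(x*z))^2 ≤ (y^2)^2 := pow_le_pow_left₀ (by positivity) hc 2
      have h2 : (y^2)^2 ≤ x^3 * y := by nlinarith [mul_le_mul_of_nonneg_right hx3 hy.le]
      have h3 : x^2 * (16*z^2) ≤ x^2 * (x*y) := by nlinarith
      have := le_of_mul_le_mul_left h3 (by positivity)
      linarith
    have h163 : 3*x^2 < 16*(y*z) := by
      have h1 : (3*(x*z)) * x^2 < y^2 * x^2 := mul_lt_mul_of_pos_right ty (by positivity)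
      have h2 : (x*y)*(x*y) < (16*z^2)*(x*y) := mul_lt_mul_of_pos_right h16 (by positivity)
      have h3 : (x*z)*(3*x^2) < (x*z)*(16*(y*z)) := by nlinarith
      exact lt_of_mul_lt_mul_left h3 (by positivity)
    have hB : B ≤ P * (4/6 * v * (1-v^2)) :=
      mid_term hv0 hv1 (by rw [hPdef]; nlinarith [mul_le_mul_of_nonneg_left h4.le hy.le]) hB1
    have hA : A ≤ P * ((16/3)/6 * u * (1-u^2)) :=
      mid_term hu0 hu1 (by rw [hPdef]; nlinarith [mul_le_mul_of_nonneg_left h163.le hx.le]) hA1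
    have hb := cube_lb2 (c := 38) hz (by norm_num) hk3 (by norm_num) (by norm_num) (by norm_num)
    have s1 := q4 hv0 hv1
    have s2 := q5 hu0 hu1
    have s3 : u*v ≤ v := by nlinarith
    have s4 : P * (u*v + 1/108 + 4/6*v*(1-v^2) + (16/3)/6*u*(1-u^2)) ≤ P * 1.4 := by
      apply mul_le_mul_of_nonneg_left _ hP.le
      norm_num at s1 s2 ⊢
      nlinarith
    have : ((x+y+z)/3)^3 = (x+y+z)^3/27 := by ring
    rw [this]
    rw [← hPG] at hb
    nlinarith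

/-- all sides small -/
theorem no_big {x y z u v w A B C : ℝ} (hx : 0 < x) (hy : 0 < y) (hz : 0 < z)
    (hu0 : 0 ≤ u) (hu1 : u ≤ 1) (hv0 : 0 ≤ v) (hv1 : v ≤ 1) (hw0 : 0 ≤ w) (hw1 : w ≤ 1)
    (hA1 : A ≤ x^3 * (u * (1 - u^2)) / 6)
    (hB1 : B ≤ y^3 * (v * (1 - v^2)) / 6) (hC1 : C ≤ z^3 * (w * (1 - w^2)) / 6)
    (sx : x^2 ≤ 3 * (y*z)) (sy : y^2 ≤ 3 * (x*z)) (sz : z^2 ≤ 3 * (x*y)) :
    x*y*z*(u*v*w) + A + B + C ≤ ((x+y+z)/3)^3 ∧
    (x*y*z*(u*v*w) + A + B + C = ((x+y+z)/3)^3 →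
      x = y ∧ y = z ∧ u = 1 ∧ v = 1 ∧ w = 1) := by
  set P := x*y*z with hPdef
  have hP : 0 < P := by positivity
  have hA : A ≤ P * (u * (1-u)) :=
    small_term hP.le hu0 hu1 (by rw [hPdef]; nlinarith [mul_le_mul_of_nonneg_left sx hx.le]) hA1
  have hB : B ≤ P * (v * (1-v)) :=
    small_term hP.le hv0 hv1 (by rw [hPdef]; nlinarith [mul_le_mul_of_nonneg_left sy hy.le]) hB1
  have hC : C ≤ P * (w * (1-w)) :=
    small_term hP.le hw0 hw1 (by rw [hPdef]; nlinarith [mul_le_mul_of_nonneg_left sz hz.le]) hC1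
  have c1 := case1 hu0 hu1 hv0 hv1 hw0 hw1
  have c2 : P * (u*v*w + u*(1-u) + v*(1-v) + w*(1-w)) ≤ P * 1 := mul_le_mul_of_nonneg_left c1 hP.le
  have amgm : 27*(((x+y+z)/3)^3 - P) =
      1/2*(x+y+z)*((x-y)^2+(y-z)^2+(z-x)^2) + 3*(z*(x-y)^2+x*(y-z)^2+y*(z-x)^2) := by
    rw [hPdef]; ring
  have n1 : 0 ≤ z*(x-y)^2 := by positivity
  have n2 : 0 ≤ x*(y-z)^2 := by positivity
  have n3 : 0 ≤ y*(z-x)^2 := by positivity
  have n4 : 0 ≤ 1/2*(x+y+z)*((x-y)^2+(y-z)^2+(z-x)^2) := by positivity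
  refine ⟨by nlinarith, fun h => ?_⟩
  have e1 : P = ((x+y+z)/3)^3 := by nlinarith
  have m1 : z*(x-y)^2 = 0 := by nlinarith
  have m2 : x*(y-z)^2 = 0 := by nlinarith
  have m1' : (x-y)^2 = 0 := by
    rcases mul_eq_zero.mp m1 with h | h
    · exact absurd h hz.ne'
    · exact h
  have m2' : (y-z)^2 = 0 := by
    rcases mul_eq_zero.mp m2 with h | h
    · exact absurd h hx.ne'
    · exact h
  have k1 := pow_eq_zero_iff (two_ne_zero) |>.mp m1'
  have k2 := pow_eq_zero_iff (two_ne_zero) |>.mp m2'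
  have c3 : P * (u*v*w + u*(1-u) + v*(1-v) + w*(1-w)) = P * 1 := by nlinarith
  have c4 := mul_left_cancel₀ hP.ne' c3
  obtain ⟨a, b, c⟩ := case1_eq hu0 hu1 hv0 hv1 hw0 hw1 c4
  exact ⟨by linarith, by linarith, a, b, c⟩

/-- normalised form -/
theorem scalar_norm {x y z u v w A B C : ℝ} (hx : 0 < x) (hy : 0 < y) (hz : 0 < z)
    (hu0 : 0 ≤ u) (hu1 : u ≤ 1) (hv0 : 0 ≤ v) (hv1 : v ≤ 1) (hw0 : 0 ≤ w) (hw1 : w ≤ 1)
    (hA1 : A ≤ x^3 * (u * (1 - u^2)) / 6) (hA2 : A ≤ x*y*z * u / 3)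
    (hB1 : B ≤ y^3 * (v * (1 - v^2)) / 6) (hB2 : B ≤ x*y*z * v / 3)
    (hC1 : C ≤ z^3 * (w * (1 - w^2)) / 6) (hC2 : C ≤ x*y*z * w / 3) :
    x*y*z*(u*v*w) + A + B + C ≤ ((x+y+z)/3)^3 ∧
    (x*y*z*(u*v*w) + A + B + C = ((x+y+z)/3)^3 →
      x = y ∧ y = z ∧ u = 1 ∧ v = 1 ∧ w = 1) := by
  have strict : ∀ {a b : ℝ} {p : Prop}, a < b → (a ≤ b ∧ (a = b → p)) :=
    fun h => ⟨h.le, fun e => absurd e h.ne⟩
  rcases le_or_gt (x^2) (3*(y*z)) with sx | bx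
  · rcases le_or_gt (y^2) (3*(x*z)) with sy | ty
    · rcases le_or_gt (z^2) (3*(x*y)) with sz | tz
      · exact no_big hx hy hz hu0 hu1 hv0 hv1 hw0 hw1 hA1 hB1 hC1 sx sy sz
      · apply strict
        have := one_big (x := z) (y := x) (z := y) (u := w) (v := u) (w := v) (A := C) (B := A)
          (C := B) hz hx hy hw0 hw1 hu0 hu1 hv0 hv1 hC1 (by nlinarith) hA1 hB1 tz
          (by nlinarith) (by nlinarith)
        have e : (z+x+y)/3 = (x+y+z)/3 := by ring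
        rw [e] at this
        nlinarith
    · rcases le_or_gt (z^2) (3*(x*y)) with sz | tz
      · apply strict
        have := one_big (x := y) (y := z) (z := x) (u := v) (v := w) (w := u) (A := B) (B := C)
          (C := A) hy hz hx hv0 hv1 hw0 hw1 hu0 hu1 hB1 (by nlinarith) hC1 hA1 (by nlinarith)
          (by nlinarith) (by nlinarith)
        have e : (y+z+x)/3 = (x+y+z)/3 := by ring
        rw [e] at this
        nlinarith
      · apply strict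
        rcases le_total y z with h | h
        · have := two_big (x := z) (y := y) (z := x) (u := w) (v := v) (w := u) (A := C) (B := B)
            (C := A) hz hy hx hw0 hw1 hv0 hv1 hu0 hu1 hC1 (by nlinarith) hB1 (by nlinarith) hA1
            (by nlinarith) (by nlinarith) h
          have e : (z+y+x)/3 = (x+y+z)/3 := by ring
          rw [e] at this
          nlinarith
        · have := two_big (x := y) (y := z) (z := x) (u := v) (v := w) (w := u) (A := B) (B := C)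
            (C := A) hy hz hx hv0 hv1 hw0 hw1 hu0 hu1 hB1 (by nlinarith) hC1 (by nlinarith) hA1
            (by nlinarith) (by nlinarith) h
          have e : (y+z+x)/3 = (x+y+z)/3 := by ring
          rw [e] at this
          nlinarith
  · rcases le_or_gt (y^2) (3*(x*z)) with sy | ty
    · rcases le_or_gt (z^2) (3*(x*y)) with sz | tz
      · exact strict (one_big hx hy hz hu0 hu1 hv0 hv1 hw0 hw1 hA1 hA2 hB1 hC1 bx sy sz)
      · apply strict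
        rcases le_total x z with h | h
        · have := two_big (x := z) (y := x) (z := y) (u := w) (v := u) (w := v) (A := C) (B := A)
            (C := B) hz hx hy hw0 hw1 hu0 hu1 hv0 hv1 hC1 (by nlinarith) hA1 (by nlinarith) hB1
            tz (by nlinarith) h
          have e : (z+x+y)/3 = (x+y+z)/3 := by ring
          rw [e] at this
          nlinarith
        · have := two_big (x := x) (y := z) (z := y) (u := u) (v := w) (w := v) (A := A) (B := C)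
            (C := B) hx hz hy hu0 hu1 hw0 hw1 hv0 hv1 hA1 (by nlinarith) hC1 (by nlinarith) hB1
            (by nlinarith) (by nlinarith) h
          have e : (x+z+y)/3 = (x+y+z)/3 := by ring
          rw [e] at this
          nlinarith
    · apply strict
      rcases le_total y x with h | h
      · exact two_big hx hy hz hu0 hu1 hv0 hv1 hw0 hw1 hA1 hA2 hB1 hB2 hC1 bx ty h
      · have := two_big (x := y) (y := x) (z := z) (u := v) (v := u) (w := w) (A := B) (B := A)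
          (C := C) hy hx hz hv0 hv1 hu0 hu1 hw0 hw1 hB1 (by nlinarith) hA1 (by nlinarith) hC1
          ty bx h
        have e : (y+x+z)/3 = (x+y+z)/3 := by ring
        rw [e] at this
        nlinarith

/-- THE SCALAR INEQUALITY. -/
theorem scalar {x y z X Y Z A B C : ℝ} (hx : 0 < x) (hy : 0 < y) (hz : 0 < z)
    (hX0 : 0 ≤ X) (hX : X ≤ x) (hY0 : 0 ≤ Y) (hY : Y ≤ y) (hZ0 : 0 ≤ Z) (hZ : Z ≤ z)
    (hA1 : A ≤ X * (x^2 - X^2) / 6) (hA2 : A ≤ X * (y*z) / 3)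
    (hB1 : B ≤ Y * (y^2 - Y^2) / 6) (hB2 : B ≤ Y * (x*z) / 3)
    (hC1 : C ≤ Z * (z^2 - Z^2) / 6) (hC2 : C ≤ Z * (x*y) / 3) :
    X*Y*Z + A + B + C ≤ ((x+y+z)/3)^3 ∧
    (X*Y*Z + A + B + C = ((x+y+z)/3)^3 → x = y ∧ y = z ∧ X = x ∧ Y = y ∧ Z = z) := by
  obtain ⟨u, hu⟩ : ∃ u, X = x * u := ⟨X / x, by field_simp⟩
  obtain ⟨v, hv⟩ : ∃ v, Y = y * v := ⟨Y / y, by field_simp⟩
  obtain ⟨w, hw⟩ : ∃ w, Z = z * w := ⟨Z / z, by field_simp⟩
  subst hu; subst hv; subst hw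
  have hu0 : 0 ≤ u := nonneg_of_mul_nonneg_right hX0 hx
  have hv0 : 0 ≤ v := nonneg_of_mul_nonneg_right hY0 hy
  have hw0 : 0 ≤ w := nonneg_of_mul_nonneg_right hZ0 hz
  have hu1 : u ≤ 1 := le_of_mul_le_mul_left (by linarith) hx
  have hv1 : v ≤ 1 := le_of_mul_le_mul_left (by linarith) hy
  have hw1 : w ≤ 1 := le_of_mul_le_mul_left (by linarith) hz
  have h := scalar_norm (A := A) (B := B) (C := C) hx hy hz hu0 hu1 hv0 hv1 hw0 hw1
    (by refine hA1.trans (le_of_eq ?_); ring) (by refine hA2.trans (le_of_eq ?_); ring)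
    (by refine hB1.trans (le_of_eq ?_); ring) (by refine hB2.trans (le_of_eq ?_); ring)
    (by refine hC1.trans (le_of_eq ?_); ring) (by refine hC2.trans (le_of_eq ?_); ring)
  have e : x*u*(y*v)*(z*w) = x*y*z*(u*v*w) := by ring
  rw [e]
  refine ⟨h.1, fun k => ?_⟩
  obtain ⟨a, b, c, d, e'⟩ := h.2 k
  refine ⟨a, b, ?_, ?_, ?_⟩
  · rw [c]; ring
  · rw [d]; ring
  · rw [e']; ring

end Pool.Agent.Work.MP_3892ce_cube_h9
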