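import Pool.Agent.Work.MP_3892ce_cube_h9.Comb

/-! # Volume and edges of combinatorial cubes -/

set_option autoImplicit false

namespace Pool.Agent.Work.MP_3892ce_cube_h9

open Pool.Agent.Work.MP_3892ce_gt MeasureTheory Set

variable {P : Set E3} {v : (Fin 3 → Bool) → E3} {n : Fin 3 → Bool → E3} {c : Fin 3 → Bool → ℝ}

/-! ### The parameters of the trilinear map -/

/-- the eight vertices as arguments of a function -/
def app8 {α : Type*} (v : (Fin 3 → Bool) → E3) (f : E3 → E3 → E3 → E3 → E3 → E3 → E3 → E3 → α) : α :=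
  f (v ![false, false, false]) (v ![true, false, false]) (v ![false, true, false])
    (v ![false, false, true]) (v ![true, true, false]) (v ![true, false, true])
    (v ![false, true, true]) (v ![true, true, true])

/-- the signed volume of the trilinear image of the cube -/
noncomputable def VT (v : (Fin 3 → Bool) → E3) : ℝ :=
  V7 (app8 v pX) (app8 v pY) (app8 v pZ) (app8 v pp) (app8 v pq) (app8 v pr)

/-- the sum of the three mean edge lengths -/
noncomputable def Lm (v : (Fin 3 → Bool) → E3) : ℝ :=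
  mean4 (app8 v pX) (app8 v pr) (app8 v pq) (app8 v ps) +
  mean4 (app8 v pY) (app8 v pr) (app8 v pp) (app8 v ps) +
  mean4 (app8 v pZ) (app8 v pp) (app8 v pq) (app8 v ps)

lemma four_Lm (v : (Fin 3 → Bool) → E3) : 4 * Lm v =
    ‖v ![true, true, true] - v ![false, true, true]‖ + ‖v ![true, false, false] - v ![false, false, false]‖
    + ‖v ![true, true, false] - v ![false, true, false]‖ + ‖v ![true, false, true] - v ![false, false, true]‖
    + (‖v ![true, true, true] - v ![true, false, true]‖ + ‖v ![false, true, false] - v ![false, false, false]‖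
    + ‖v ![true, true, false] - v ![true, false, false]‖ + ‖v ![false, true, true] - v ![false, false, true]‖)
    + (‖v ![true, true, true] - v ![true, true, false]‖ + ‖v ![false, false, true] - v ![false, false, false]‖
    + ‖v ![false, true, true] - v ![false, true, false]‖ + ‖v ![true, false, true] - v ![true, false, false]‖) := by
  unfold Lm app8 mean4 pX pY pZ pr pq pp ps
  generalize v ![false, false, false] = o
  generalize v ![true, false, false] = a
  generalize v ![false, true, false] = b
  generalize v ![false, false, true] = c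
  generalize v ![true, true, false] = ab
  generalize v ![true, false, true] = ac
  generalize v ![false, true, true] = bc
  generalize v ![true, true, true] = abc
  have e1 : (4⁻¹ : ℝ) • (a - o + ab - b + ac - c + abc - bc) + (4⁻¹ : ℝ) • (o + c + ab + abc - a - b - ac - bc)
      + (4⁻¹ : ℝ) • (o + b + ac + abc - a - c - ab - bc) + (4⁻¹ : ℝ) • (a + b + c + abc - o - ab - ac - bc)
      = abc - bc := by module
  have e2 : (4⁻¹ : ℝ) • (a - o + ab - b + ac - c + abc - bc) - (4⁻¹ : ℝ) • (o + c + ab + abc - a - b - ac - bc)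
      - (4⁻¹ : ℝ) • (o + b + ac + abc - a - c - ab - bc) + (4⁻¹ : ℝ) • (a + b + c + abc - o - ab - ac - bc)
      = a - o := by module
  have e3 : (4⁻¹ : ℝ) • (a - o + ab - b + ac - c + abc - bc) + (4⁻¹ : ℝ) • (o + c + ab + abc - a - b - ac - bc)
      - (4⁻¹ : ℝ) • (o + b + ac + abc - a - c - ab - bc) - (4⁻¹ : ℝ) • (a + b + c + abc - o - ab - ac - bc)
      = ab - b := by module
  have e4 : (4⁻¹ : ℝ) • (a - o + ab - b + ac - c + abc - bc) - (4⁻¹ : ℝ) • (o + c + ab + abc - a - b - ac - bc)
      + (4⁻¹ : ℝ) • (o + b + ac + abc - a - c - ab - bc) - (4⁻¹ : ℝ) • (a + b + c + abc - o - ab - ac - bc)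
      = ac - c := by module
  have f1 : (4⁻¹ : ℝ) • (b - o + ab - a + bc - c + abc - ac) + (4⁻¹ : ℝ) • (o + c + ab + abc - a - b - ac - bc)
      + (4⁻¹ : ℝ) • (o + a + bc + abc - b - c - ab - ac) + (4⁻¹ : ℝ) • (a + b + c + abc - o - ab - ac - bc)
      = abc - ac := by module
  have f2 : (4⁻¹ : ℝ) • (b - o + ab - a + bc - c + abc - ac) - (4⁻¹ : ℝ) • (o + c + ab + abc - a - b - ac - bc)
      - (4⁻¹ : ℝ) • (o + a + bc + abc - b - c - ab - ac) + (4⁻¹ : ℝ) • (a + b + c + abc - o - ab - ac - bc)
      = b - o := by module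
  have f3 : (4⁻¹ : ℝ) • (b - o + ab - a + bc - c + abc - ac) + (4⁻¹ : ℝ) • (o + c + ab + abc - a - b - ac - bc)
      - (4⁻¹ : ℝ) • (o + a + bc + abc - b - c - ab - ac) - (4⁻¹ : ℝ) • (a + b + c + abc - o - ab - ac - bc)
      = ab - a := by module
  have f4 : (4⁻¹ : ℝ) • (b - o + ab - a + bc - c + abc - ac) - (4⁻¹ : ℝ) • (o + c + ab + abc - a - b - ac - bc)
      + (4⁻¹ : ℝ) • (o + a + bc + abc - b - c - ab - ac) - (4⁻¹ : ℝ) • (a + b + c + abc - o - ab - ac - bc)
      = bc - c := by module
  have g1 : (4⁻¹ : ℝ) • (c - o + ac - a + bc - b + abc - ab) + (4⁻¹ : ℝ) • (o + a + bc + abc - b - c - ab - ac)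
      + (4⁻¹ : ℝ) • (o + b + ac + abc - a - c - ab - bc) + (4⁻¹ : ℝ) • (a + b + c + abc - o - ab - ac - bc)
      = abc - ab := by module
  have g2 : (4⁻¹ : ℝ) • (c - o + ac - a + bc - b + abc - ab) - (4⁻¹ : ℝ) • (o + a + bc + abc - b - c - ab - ac)
      - (4⁻¹ : ℝ) • (o + b + ac + abc - a - c - ab - bc) + (4⁻¹ : ℝ) • (a + b + c + abc - o - ab - ac - bc)
      = c - o := by module
  have g3 : (4⁻¹ : ℝ) • (c - o + ac - a + bc - b + abc - ab) + (4⁻¹ : ℝ) • (o + a + bc + abc - b - c - ab - ac)
      - (4⁻¹ : ℝ) • (o + b + ac + abc - a - c - ab - bc) - (4⁻¹ : ℝ) • (a + b + c + abc - o - ab - ac - bc)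
      = bc - b := by module
  have g4 : (4⁻¹ : ℝ) • (c - o + ac - a + bc - b + abc - ab) - (4⁻¹ : ℝ) • (o + a + bc + abc - b - c - ab - ac)
      + (4⁻¹ : ℝ) • (o + b + ac + abc - a - c - ab - bc) - (4⁻¹ : ℝ) • (a + b + c + abc - o - ab - ac - bc)
      = ac - a := by module
  rw [e1, e2, e3, e4, f1, f2, f3, f4, g1, g2, g3, g4]
  ring

lemma VT_eq (v : (Fin 3 → Bool) → E3) :
    12 * VT v = 2 * app8 v (fun o a b c ab ac bc abc =>
      det3 (a - o) (ab - o) (abc - o) + det3 (a - o) (abc - o) (ac - o)
      + det3 (b - o) (bc - o) (abc - o) + det3 (b - o) (abc - o) (ab - o)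
      + det3 (c - o) (ac - o) (abc - o) + det3 (c - o) (abc - o) (bc - o))
    + app8 v (fun o a b c ab ac bc abc =>
      det3 (ab - a) (abc - a) (ac - a) + det3 (bc - b) (abc - b) (ab - b)
      + det3 (ac - c) (abc - c) (bc - c) - det3 (b - o) (bc - o) (c - o)
      - det3 (c - o) (ac - o) (a - o) - det3 (a - o) (ab - o) (b - o)) := by
  unfold VT app8
  generalize v ![false, false, false] = o
  generalize v ![true, false, false] = a
  generalize v ![false, true, false] = b
  generalize v ![false, false, true] = c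
  generalize v ![true, true, false] = ab
  generalize v ![true, false, true] = ac
  generalize v ![false, true, true] = bc
  generalize v ![true, true, true] = abc
  have h := V7_ident (a - o) (b - o) (c - o) (ab - o) (ac - o) (bc - o) (abc - o)
  have eX : pX 0 (a - o) (b - o) (c - o) (ab - o) (ac - o) (bc - o) (abc - o)
      = pX o a b c ab ac bc abc := by unfold pX; module
  have eY : pY 0 (a - o) (b - o) (c - o) (ab - o) (ac - o) (bc - o) (abc - o)
      = pY o a b c ab ac bc abc := by unfold pY; module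
  have eZ : pZ 0 (a - o) (b - o) (c - o) (ab - o) (ac - o) (bc - o) (abc - o)
      = pZ o a b c ab ac bc abc := by unfold pZ; module
  have er : pr 0 (a - o) (b - o) (c - o) (ab - o) (ac - o) (bc - o) (abc - o)
      = pr o a b c ab ac bc abc := by unfold pr; module
  have eq : pq 0 (a - o) (b - o) (c - o) (ab - o) (ac - o) (bc - o) (abc - o)
      = pq o a b c ab ac bc abc := by unfold pq; module
  have ep : pp 0 (a - o) (b - o) (c - o) (ab - o) (ac - o) (bc - o) (abc - o)
      = pp o a b c ab ac bc abc := by unfold pp; module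
  rw [eX, eY, eZ, er, eq, ep] at h
  rw [h]
  have k : ∀ s t : E3, (s - o) - (t - o) = s - t := fun s t => by abel
  simp only [k]
  ring

/-! ### The volume -/

namespace CubeData

lemma facet_mem (h : CubeData P v n c) {y : E3} (hy : y ∈ P) {i : Fin 3} {A B C D : E3}
    (hi : inner ℝ (n i true) y = c i true)
    (hv : ∀ ε : Fin 3 → Bool, ε i = true → v ε ∈ ({A, B, C, D} : Set E3)) : y ∈ tetS A B C D := by
  apply convexHull_subset_tetS
  refine convexHull_mono ?_ (h.face hy {(i, true)} ?_)
  · rintro _ ⟨ε, hε, rfl⟩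
    exact hv ε (hε (i, true) rfl)
  · rintro s rfl
    exact hi

lemma ne_n (h : CubeData P v n c) (i : Fin 3) : n i false ≠ 0 := by
  intro h0
  have h1 := h.eq (ε := fun _ => false) (i := i) (b := false) rfl
  have h2 := h.lt (ε := fun _ => true) (i := i) (b := false) (by simp)
  rw [h0, inner_zero_left] at h1 h2
  linarith

lemma sub_false (h : CubeData P v n c) (ε : Fin 3 → Bool) (i : Fin 3) :
    (ε i = false → inner ℝ (n i false) (v ε - v ![false, false, false]) = 0) ∧
    (ε i = true → inner ℝ (n i false) (v ε - v ![false, false, false]) < 0) := by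
  have h0 : inner ℝ (n i false) (v ![false, false, false]) = c i false :=
    h.eq (by fin_cases i <;> rfl)
  constructor
  · intro hi
    rw [inner_sub_right, h0, h.eq hi, sub_self]
  · intro hi
    rw [inner_sub_right, h0]
    have := h.lt (ε := ε) (i := i) (b := false) (by rw [hi]; simp)
    linarith

theorem volume_le_and_ne (h : CubeData P v n c) :
    volume P ≤ ENNReal.ofReal |VT v| ∧ VT v ≠ 0 := by
  set o := v ![false, false, false] with ho
  set a := v ![true, false, false] with ha
  set b := v ![false, true, false] with hb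
  set cc := v ![false, false, true] with hcc
  set ab := v ![true, true, false] with hab
  set ac := v ![true, false, true] with hac
  set bc := v ![false, true, true] with hbc
  set abc := v ![true, true, true] with habc
  have o0 : (fun _ => false : Fin 3 → Bool) = ![false, false, false] := by decide
  -- facet 0
  have F0 := facet (o := o) (A := a) (B := ab) (C := abc) (D := ac) (ni := n 0 false)
    (nj := n 1 false) (nk := n 2 false) (mi := n 0 true) (mk := n 2 true) (ci := c 0 true)
    (ck := c 2 true)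
    ((h.sub_false ![true, false, false] 0).2 rfl)
    ((h.sub_false ![true, false, false] 1).1 rfl) ((h.sub_false ![true, true, false] 1).2 rfl)
    ((h.sub_false ![true, true, true] 1).2 rfl) ((h.sub_false ![true, false, true] 1).1 rfl)
    ((h.sub_false ![true, false, false] 2).1 rfl) ((h.sub_false ![true, true, false] 2).1 rfl)
    ((h.sub_false ![true, true, true] 2).2 rfl) ((h.sub_false ![true, false, true] 2).2 rfl)
    (h.eq rfl) (h.eq rfl) (h.eq rfl) (h.eq rfl) (h.lt (by decide))
    (h.lt (by decide)) (h.lt (by decide)) (h.eq rfl) (h.eq rfl)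
  have F1 := facet (o := o) (A := b) (B := bc) (C := abc) (D := ab) (ni := n 1 false)
    (nj := n 2 false) (nk := n 0 false) (mi := n 1 true) (mk := n 0 true) (ci := c 1 true)
    (ck := c 0 true)
    ((h.sub_false ![false, true, false] 1).2 rfl)
    ((h.sub_false ![false, true, false] 2).1 rfl) ((h.sub_false ![false, true, true] 2).2 rfl)
    ((h.sub_false ![true, true, true] 2).2 rfl) ((h.sub_false ![true, true, false] 2).1 rfl)
    ((h.sub_false ![false, true, false] 0).1 rfl) ((h.sub_false ![false, true, true] 0).1 rfl)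
    ((h.sub_false ![true, true, true] 0).2 rfl) ((h.sub_false ![true, true, false] 0).2 rfl)
    (h.eq rfl) (h.eq rfl) (h.eq rfl) (h.eq rfl) (h.lt (by decide))
    (h.lt (by decide)) (h.lt (by decide)) (h.eq rfl) (h.eq rfl)
  have F2 := facet (o := o) (A := cc) (B := ac) (C := abc) (D := bc) (ni := n 2 false)
    (nj := n 0 false) (nk := n 1 false) (mi := n 2 true) (mk := n 1 true) (ci := c 2 true)
    (ck := c 1 true)
    ((h.sub_false ![false, false, true] 2).2 rfl)
    ((h.sub_false ![false, false, true] 0).1 rfl) ((h.sub_false ![true, false, true] 0).2 rfl)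
    ((h.sub_false ![true, true, true] 0).2 rfl) ((h.sub_false ![false, true, true] 0).1 rfl)
    ((h.sub_false ![false, false, true] 1).1 rfl) ((h.sub_false ![true, false, true] 1).1 rfl)
    ((h.sub_false ![true, true, true] 1).2 rfl) ((h.sub_false ![false, true, true] 1).2 rfl)
    (h.eq rfl) (h.eq rfl) (h.eq rfl) (h.eq rfl) (h.lt (by decide))
    (h.lt (by decide)) (h.lt (by decide)) (h.eq rfl) (h.eq rfl)
  -- planarity at the three facets through `o`
  have G0 : det3 (b - o) (bc - o) (cc - o) = 0 := det3_planar (h.ne_n 0)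
    ((h.sub_false _ 0).1 rfl) ((h.sub_false _ 0).1 rfl) ((h.sub_false _ 0).1 rfl)
  have G1 : det3 (cc - o) (ac - o) (a - o) = 0 := det3_planar (h.ne_n 1)
    ((h.sub_false _ 1).1 rfl) ((h.sub_false _ 1).1 rfl) ((h.sub_false _ 1).1 rfl)
  have G2 : det3 (a - o) (ab - o) (b - o) = 0 := det3_planar (h.ne_n 2)
    ((h.sub_false _ 2).1 rfl) ((h.sub_false _ 2).1 rfl) ((h.sub_false _ 2).1 rfl)
  obtain ⟨p1, q1, r1, s1⟩ := F0
  obtain ⟨p2, q2, r2, s2⟩ := F1
  obtain ⟨p3, q3, r3, s3⟩ := F2
  -- covering
  have cover : P ⊆ ((tetS o a ab abc ∪ tetS o a abc ac) ∪ (tetS o b bc abc ∪ tetS o b abc ab))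
      ∪ (tetS o cc ac abc ∪ tetS o cc abc bc) := by
    intro x hx
    obtain ⟨i, y, hy, hi, t, ht, ht1, rfl⟩ := h.radial hx
    rw [o0]
    fin_cases i
    · left; left
      refine s1 y (h.facet_mem hy hi ?_) t ht ht1
      intro ε hε
      have : ε = ![true, false, false] ∨ ε = ![true, true, false] ∨ ε = ![true, true, true] ∨
          ε = ![true, false, true] := by
        revert ε; decide
      rcases this with rfl | rfl | rfl | rfl <;> simp [ha, hab, habc, hac]
    · left; right
      refine s2 y (h.facet_mem hy hi ?_) t ht ht1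
      intro ε hε
      have : ε = ![false, true, false] ∨ ε = ![false, true, true] ∨ ε = ![true, true, true] ∨
          ε = ![true, true, false] := by
        revert ε; decide
      rcases this with rfl | rfl | rfl | rfl <;> simp [hb, hab, habc, hbc]
    · right
      refine s3 y (h.facet_mem hy hi ?_) t ht ht1
      intro ε hε
      have : ε = ![false, false, true] ∨ ε = ![true, false, true] ∨ ε = ![true, true, true] ∨
          ε = ![false, true, true] := by
        revert ε; decide
      rcases this with rfl | rfl | rfl | rfl <;> simp [hcc, hac, habc, hbc]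
  have hV := VT_eq v
  unfold app8 at hV
  simp only [← ho, ← ha, ← hb, ← hcc, ← hab, ← hac, ← hbc, ← habc] at hV
  rw [r1, r2, r3, G0, G1, G2] at hV
  have c1 : det3 (n 1 false) (n 2 false) (n 0 false) = det3 (n 0 false) (n 1 false) (n 2 false) :=
    (det3_cyc _ _ _).symm
  have c2 : det3 (n 2 false) (n 0 false) (n 1 false) = det3 (n 0 false) (n 1 false) (n 2 false) :=
    det3_cyc _ _ _
  rw [c1] at p2 q2
  rw [c2] at p3 q3
  have habs : VT v ≠ 0 ∧ |det3 (a - o) (ab - o) (abc - o)| + |det3 (a - o) (abc - o) (ac - o)|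
      + (|det3 (b - o) (bc - o) (abc - o)| + |det3 (b - o) (abc - o) (ab - o)|)
      + (|det3 (cc - o) (ac - o) (abc - o)| + |det3 (cc - o) (abc - o) (bc - o)|) = 6 * |VT v| := by
    rcases lt_trichotomy (det3 (n 0 false) (n 1 false) (n 2 false)) 0 with hN | hN | hN
    · have k : ∀ d, det3 (n 0 false) (n 1 false) (n 2 false) * d < 0 → 0 < d := fun d hd => by
        by_contra hc
        push Not at hc
        have := mul_nonneg_of_nonpos_of_nonpos hN.le hc
        linarith
      have a1 := k _ p1; have a2 := k _ q1; have a3 := k _ p2; have a4 := k _ q2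
      have a5 := k _ p3; have a6 := k _ q3
      have a7 : 0 < VT v := by linarith
      refine ⟨a7.ne', ?_⟩
      rw [abs_of_pos a1, abs_of_pos a2, abs_of_pos a3, abs_of_pos a4, abs_of_pos a5,
        abs_of_pos a6, abs_of_pos a7]
      linarith
    · rw [hN, zero_mul] at p1
      exact absurd p1 (lt_irrefl _)
    · have k : ∀ d, det3 (n 0 false) (n 1 false) (n 2 false) * d < 0 → d < 0 := fun d hd => by
        by_contra hc
        push Not at hc
        have := mul_nonneg hN.le hc
        linarith
      have a1 := k _ p1; have a2 := k _ q1; have a3 := k _ p2; have a4 := k _ q2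
      have a5 := k _ p3; have a6 := k _ q3
      have a7 : VT v < 0 := by linarith
      refine ⟨a7.ne, ?_⟩
      rw [abs_of_neg a1, abs_of_neg a2, abs_of_neg a3, abs_of_neg a4, abs_of_neg a5,
        abs_of_neg a6, abs_of_neg a7]
      linarith
  obtain ⟨hne, habs⟩ := habs
  refine ⟨?_, hne⟩
  calc volume P ≤ volume (((tetS o a ab abc ∪ tetS o a abc ac) ∪ (tetS o b bc abc ∪ tetS o b abc ab))
      ∪ (tetS o cc ac abc ∪ tetS o cc abc bc)) := measure_mono cover
    _ ≤ ((volume (tetS o a ab abc) + volume (tetS o a abc ac)) + (volume (tetS o b bc abc)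
        + volume (tetS o b abc ab))) + (volume (tetS o cc ac abc) + volume (tetS o cc abc bc)) := by
        refine (measure_union_le _ _).trans (add_le_add ((measure_union_le _ _).trans
          (add_le_add (measure_union_le _ _) (measure_union_le _ _))) (measure_union_le _ _))
    _ ≤ ((ENNReal.ofReal (|det3 (a - o) (ab - o) (abc - o)| / 6)
          + ENNReal.ofReal (|det3 (a - o) (abc - o) (ac - o)| / 6))
        + (ENNReal.ofReal (|det3 (b - o) (bc - o) (abc - o)| / 6)
          + ENNReal.ofReal (|det3 (b - o) (abc - o) (ab - o)| / 6)))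
        + (ENNReal.ofReal (|det3 (cc - o) (ac - o) (abc - o)| / 6)
          + ENNReal.ofReal (|det3 (cc - o) (abc - o) (bc - o)| / 6)) := by
        gcongr <;> exact volume_tetS_le _ _ _ _
    _ = ENNReal.ofReal |VT v| := by
        rw [← ENNReal.ofReal_add (by positivity) (by positivity),
          ← ENNReal.ofReal_add (by positivity) (by positivity),
          ← ENNReal.ofReal_add (by positivity) (by positivity),
          ← ENNReal.ofReal_add (by positivity) (by positivity),
          ← ENNReal.ofReal_add (by positivity) (by positivity)]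
        congr 1
        linarith

/-! ### The edges -/

lemma injv (h : CubeData P v n c) : Function.Injective v := by
  intro ε ε' he
  ext i
  have h1 : inner ℝ (n i (ε' i)) (v ε') = c i (ε' i) := h.eq rfl
  rw [← he] at h1
  exact (h.2.2 ε i (ε' i)).mp h1

end CubeData

/-- the vertex with `i`-th coordinate `s` and the other two coordinates `b`, `b'` -/
def vx (i : Fin 3) (s b b' : Bool) : Fin 3 → Bool :=
  fun l => if l = i then s else if l = i + 1 then b else b'

/-- the edges of the cube -/
def eg (v : (Fin 3 → Bool) → E3) (k : Fin 3 × Bool × Bool) : Set E3 :=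
  segment ℝ (v (vx k.1 false k.2.1 k.2.2)) (v (vx k.1 true k.2.1 k.2.2))

lemma vx1 : ∀ (i : Fin 3) (s b b' : Bool), vx i s b b' (i + 1) = b := by decide
lemma vx2 : ∀ (i : Fin 3) (s b b' : Bool), vx i s b b' (i + 2) = b' := by decide
lemma vx_cases : ∀ (i : Fin 3) (b b' : Bool) (ε : Fin 3 → Bool), ε (i + 1) = b → ε (i + 2) = b' →
    ε = vx i false b b' ∨ ε = vx i true b b' := by decide

lemma vx_inj : ∀ k k' : Fin 3 × Bool × Bool, vx k.1 false k.2.1 k.2.2 (k'.1 + 1) = k'.2.1 →
    vx k.1 false k.2.1 k.2.2 (k'.1 + 2) = k'.2.2 → vx k.1 true k.2.1 k.2.2 (k'.1 + 1) = k'.2.1 →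
    vx k.1 true k.2.1 k.2.2 (k'.1 + 2) = k'.2.2 → k = k' := by decide

namespace CubeData

lemma eg_eq (h : CubeData P v n c) (k : Fin 3 × Bool × Bool) :
    eg v k = {x ∈ P | inner ℝ (n (k.1 + 1) k.2.1) x = c (k.1 + 1) k.2.1 ∧
      inner ℝ (n (k.1 + 2) k.2.2) x = c (k.1 + 2) k.2.2} := by
  obtain ⟨i, b, b'⟩ := k
  simp only [eg]
  apply Subset.antisymm
  · rintro x hx
    have hxP : x ∈ P := h.convex.segment_subset (h.mem _) (h.mem _) hx
    obtain ⟨s, t, hs, ht, hst, rfl⟩ := hx
    refine ⟨hxP, ?_, ?_⟩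
    · rw [inner_add_right, inner_smul_right, inner_smul_right, h.eq (vx1 _ _ _ _),
        h.eq (vx1 _ _ _ _), ← add_mul, hst, one_mul]
    · rw [inner_add_right, inner_smul_right, inner_smul_right, h.eq (vx2 _ _ _ _),
        h.eq (vx2 _ _ _ _), ← add_mul, hst, one_mul]
  · rintro x ⟨hxP, h1, h2⟩
    rw [← convexHull_pair]
    refine convexHull_mono ?_ (h.face hxP {(i + 1, b), (i + 2, b')} ?_)
    · rintro _ ⟨ε, hε, rfl⟩
      rcases vx_cases i b b' ε (hε (i + 1, b) (by simp)) (hε (i + 2, b') (by simp)) with e | e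
      · left; rw [e]
      · right; rw [e]; rfl
    · rintro s hs
      rcases hs with rfl | hs
      · exact h1
      · rw [mem_singleton_iff] at hs
        subst hs
        exact h2

lemma isEdge (h : CubeData P v n c) (k : Fin 3 × Bool × Bool) : IsEdge P (eg v k) := by
  refine ⟨fun _ => ⟨innerSL ℝ (n (k.1 + 1) k.2.1 + n (k.1 + 2) k.2.2), ?_⟩, _, _, ?_, rfl⟩
  · rw [h.eg_eq k]
    ext x
    simp only [mem_setOf_eq, innerSL_apply_apply]
    constructor
    · rintro ⟨hx, h1, h2⟩
      refine ⟨hx, fun y hy => ?_⟩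
      rw [inner_add_left, inner_add_left, h1, h2]
      exact add_le_add (h.le hy _ _) (h.le hy _ _)
    · rintro ⟨hx, hm⟩
      have h1 := h.le hx (k.1 + 1) k.2.1
      have h2 := h.le hx (k.1 + 2) k.2.2
      have h3 := hm _ (h.mem (vx k.1 false k.2.1 k.2.2))
      rw [inner_add_left, inner_add_left, h.eq (vx1 _ _ _ _), h.eq (vx2 _ _ _ _)] at h3
      exact ⟨hx, by linarith, by linarith⟩
  · intro he
    have := congrFun (h.injv he) k.1
    simp [vx] at this

lemma eg_inj (h : CubeData P v n c) : Function.Injective (eg v) := by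
  intro k k' hk
  have h1 : v (vx k.1 false k.2.1 k.2.2) ∈ eg v k' := by rw [← hk]; exact left_mem_segment _ _ _
  have h2 : v (vx k.1 true k.2.1 k.2.2) ∈ eg v k' := by rw [← hk]; exact right_mem_segment _ _ _
  rw [h.eg_eq k'] at h1 h2
  obtain ⟨_, a1, a2⟩ := h1
  obtain ⟨_, a3, a4⟩ := h2
  have b1 := (h.2.2 _ _ _).mp a1
  have b2 := (h.2.2 _ _ _).mp a2
  have b3 := (h.2.2 _ _ _).mp a3
  have b4 := (h.2.2 _ _ _).mp a4
  exact vx_inj k k' b1 b2 b3 b4

end CubeData

lemma sum_eg (v : (Fin 3 → Bool) → E3) :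
    ∑ k, Metric.ediam (eg v k) = ENNReal.ofReal (4 * Lm v) := by
  have e : ∀ k, Metric.ediam (eg v k) =
      ENNReal.ofReal ‖v (vx k.1 true k.2.1 k.2.2) - v (vx k.1 false k.2.1 k.2.2)‖ := by
    intro k
    unfold eg
    rw [ediam_seg, edist_comm, edist_dist, dist_eq_norm]
  simp only [e]
  rw [← ENNReal.ofReal_sum_of_nonneg (fun _ _ => norm_nonneg _)]
  congr 1
  rw [four_Lm, Fintype.sum_prod_type, Fin.sum_univ_three]
  simp only [Fintype.sum_prod_type, Fintype.sum_bool]
  have w : ∀ s b b' : Bool, vx 0 s b b' = ![s, b, b'] ∧ vx 1 s b b' = ![b', s, b] ∧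
      vx 2 s b b' = ![b, b', s] := by decide
  simp only [fun s b b' => (w s b b').1, fun s b b' => (w s b b').2.1,
    fun s b b' => (w s b b').2.2]
  ring

namespace CubeData

theorem Lm_le (h : CubeData P v n c) : ENNReal.ofReal (4 * Lm v) ≤ zeta1 P := by
  rw [← sum_eg]
  exact sum_le_zeta1 (eg v) h.isEdge h.eg_inj

/-- the inequality -/
theorem main (h : CubeData P v n c) : 1728 * volume P ≤ zeta1 P ^ 3 ∧
    (1728 * volume P = zeta1 P ^ 3 → |VT v| = (Lm v / 3)^3) := by
  obtain ⟨h1, h2⟩ := h.volume_le_and_ne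
  have h3 := (eight_abs (app8 v pX) (app8 v pY) (app8 v pZ) (app8 v pp) (app8 v pq) (app8 v pr)
    (app8 v ps)).1
  have h4 : |VT v| ≤ (Lm v / 3)^3 := h3
  have h5 : (1728 : ENNReal) * volume P ≤ ENNReal.ofReal (1728 * |VT v|) := by
    rw [ENNReal.ofReal_mul (by norm_num)]
    have : ENNReal.ofReal 1728 = 1728 := by norm_num
    rw [this]
    gcongr
  have hL : 0 ≤ Lm v := by
    unfold Lm
    have := mean4_nonneg (app8 v pX) (app8 v pr) (app8 v pq) (app8 v ps)
    have := mean4_nonneg (app8 v pY) (app8 v pr) (app8 v pp) (app8 v ps)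
    have := mean4_nonneg (app8 v pZ) (app8 v pp) (app8 v pq) (app8 v ps)
    linarith
  have h6 : ENNReal.ofReal (1728 * |VT v|) ≤ ENNReal.ofReal ((4 * Lm v)^3) := by
    apply ENNReal.ofReal_le_ofReal
    have : 1728 * (Lm v / 3)^3 = (4 * Lm v)^3 := by ring
    linarith
  have h7 : ENNReal.ofReal ((4 * Lm v)^3) ≤ zeta1 P ^ 3 := by
    rw [ENNReal.ofReal_pow (by positivity)]
    gcongr
    exact h.Lm_le
  refine ⟨(h5.trans h6).trans h7, fun he => ?_⟩
  have h8 : ENNReal.ofReal (1728 * |VT v|) = ENNReal.ofReal ((4 * Lm v)^3) := by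
    apply le_antisymm h6
    refine h7.trans ?_
    rw [← he]
    exact h5
  rw [ENNReal.ofReal_eq_ofReal_iff (by positivity) (by positivity)] at h8
  have : 1728 * (Lm v / 3)^3 = (4 * Lm v)^3 := by ring
  linarith

end CubeData

end Pool.Agent.Work.MP_3892ce_cube_h9
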